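import Mathlib

/-!
Basic definitions and lemmas on (evolution) algebras: powers, lower central series, nilpotency.
-/

set_option autoImplicit false

namespace Pool.Agent.H6EV

open Module

universe u v w

section defs

variable {E : Type u} [AddCommGroup E] [Module ℂ E]
variable {F : Type v} [AddCommGroup F] [Module ℂ F]

/-- `b` is a natural basis of the algebra `(E, μ)`. -/
def NaturalBasis {ι : Type w} (μ : E →ₗ[ℂ] E →ₗ[ℂ] E) (b : Basis ι ℂ E) : Prop :=
  ∀ i j, i ≠ j → μ (b i) (b j) = 0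

/-- `(E, μ)` is an evolution algebra. -/
def IsEvolution (μ : E →ₗ[ℂ] E →ₗ[ℂ] E) : Prop :=
  ∃ b : Basis (Fin (finrank ℂ E)) ℂ E, NaturalBasis μ b

/-- `W` is a subalgebra. -/
def IsSubalg (μ : E →ₗ[ℂ] E →ₗ[ℂ] E) (W : Submodule ℂ E) : Prop :=
  ∀ x ∈ W, ∀ y ∈ W, μ x y ∈ W

/-- The subspace `W` has a natural basis that extends to a natural basis of `E`. -/
def IsEvolutionSub (μ : E →ₗ[ℂ] E →ₗ[ℂ] E) (W : Submodule ℂ E) : Prop :=
  ∃ (b : Basis (Fin (finrank ℂ E)) ℂ E) (S : Set (Fin (finrank ℂ E))),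
    NaturalBasis μ b ∧ W = Submodule.span ℂ (b '' S)

/-- Condition `P`: every subalgebra is an evolution subalgebra. -/
def CondP (μ : E →ₗ[ℂ] E →ₗ[ℂ] E) : Prop :=
  ∀ W : Submodule ℂ E, IsSubalg μ W → IsEvolutionSub μ W

/-- The powers `E^1 = E`, `E^k = ∑_{i=1}^{k-1} E^i E^{k-i}` (and `E^0 = E` by convention). -/
noncomputable def pw (μ : E →ₗ[ℂ] E →ₗ[ℂ] E) : ℕ → Submodule ℂ E
  | 0 => ⊤
  | 1 => ⊤
  | (k + 2) => ⨆ i : Fin (k + 1), Submodule.map₂ μ (pw μ (i + 1)) (pw μ (k + 1 - i))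

/-- `E` is nilpotent: `E^m = 0` for some `m ≥ 1`. -/
def IsNilp (μ : E →ₗ[ℂ] E →ₗ[ℂ] E) : Prop := ∃ m, 1 ≤ m ∧ pw μ m = ⊥

/-- The index of nilpotency: the least `m ≥ 1` with `E^m = 0`. -/
noncomputable def nilIndex (μ : E →ₗ[ℂ] E →ₗ[ℂ] E) : ℕ := sInf {m | 1 ≤ m ∧ pw μ m = ⊥}

/-- Isomorphy of algebras. -/
def Iso (μ : E →ₗ[ℂ] E →ₗ[ℂ] E) (ν : F →ₗ[ℂ] F →ₗ[ℂ] F) : Prop :=
  ∃ φ : E ≃ₗ[ℂ] F, ∀ x y, φ (μ x y) = ν (φ x) (φ y)

/-- The product of the direct sum of two algebras. -/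
def dsum (μ : E →ₗ[ℂ] E →ₗ[ℂ] E) (ν : F →ₗ[ℂ] F →ₗ[ℂ] F) :
    (E × F) →ₗ[ℂ] (E × F) →ₗ[ℂ] (E × F) :=
  LinearMap.mk₂ ℂ (fun x y => (μ x.1 y.1, ν x.2 y.2))
    (fun x y z => by simp [map_add]) (fun c x y => by simp [map_smul])
    (fun x y z => by simp [map_add]) (fun c x y => by simp [map_smul])

@[simp] lemma dsum_apply (μ : E →ₗ[ℂ] E →ₗ[ℂ] E) (ν : F →ₗ[ℂ] F →ₗ[ℂ] F) (x y : E × F) :
    dsum μ ν x y = (μ x.1 y.1, ν x.2 y.2) := rfl

/-- The one-dimensional algebra `e e = e`. -/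
noncomputable def ES1 : ℂ →ₗ[ℂ] ℂ →ₗ[ℂ] ℂ := LinearMap.mul ℂ ℂ

@[simp] lemma ES1_apply (x y : ℂ) : ES1 x y = x * y := rfl

/-- The `s`-dimensional nilpotent evolution algebras with the largest index of nilpotency. -/
def ZN (s : ℕ) (ν : (Fin s → ℂ) →ₗ[ℂ] (Fin s → ℂ) →ₗ[ℂ] (Fin s → ℂ)) : Prop :=
  IsEvolution ν ∧ IsNilp ν ∧
    ∀ ν' : (Fin s → ℂ) →ₗ[ℂ] (Fin s → ℂ) →ₗ[ℂ] (Fin s → ℂ),
      IsEvolution ν' → IsNilp ν' → nilIndex ν' ≤ nilIndex ν

end defs

section nat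

variable {E : Type u} [AddCommGroup E] [Module ℂ E] {ι : Type w} [Fintype ι]
  {μ : E →ₗ[ℂ] E →ₗ[ℂ] E} {b : Basis ι ℂ E}

lemma mul_eq (hb : NaturalBasis μ b) (x y : E) :
    μ x y = ∑ i, (b.repr x i * b.repr y i) • μ (b i) (b i) := by
  classical
  conv_lhs => rw [← b.sum_repr x, ← b.sum_repr y]
  rw [LinearMap.map_sum₂]
  refine Finset.sum_congr rfl fun i _ => ?_
  rw [map_sum, Finset.sum_eq_single i]
  · rw [map_smul, LinearMap.map_smul₂, smul_smul, mul_comm]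
  · intro j _ hj
    rw [map_smul, LinearMap.map_smul₂, hb i j hj.symm, smul_zero, smul_zero]
  · intro h; exact absurd (Finset.mem_univ i) h

lemma mul_basis (hb : NaturalBasis μ b) (x : E) (i : ι) :
    μ x (b i) = b.repr x i • μ (b i) (b i) := by
  classical
  rw [mul_eq hb, Finset.sum_eq_single i]
  · simp
  · intro j _ hj
    rw [Basis.repr_self, Finsupp.single_apply, if_neg hj.symm]
    simp
  · intro h; exact absurd (Finset.mem_univ i) h

lemma mul_comm' (hb : NaturalBasis μ b) (x y : E) : μ x y = μ y x := by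
  rw [mul_eq hb x y, mul_eq hb y x]
  exact Finset.sum_congr rfl fun i _ => by rw [mul_comm]

lemma mem_span_iff {ι : Type w} {b : Basis ι ℂ E} (S : Set ι) (x : E) :
    x ∈ Submodule.span ℂ (b '' S) ↔ ∀ i, i ∉ S → b.repr x i = 0 := by
  rw [Basis.mem_span_image]
  constructor
  · intro h i hi
    by_contra h0
    exact hi (h (Finset.mem_coe.mpr (Finsupp.mem_support_iff.mpr h0)))
  · intro h i hi
    by_contra h0
    exact (Finsupp.mem_support_iff.mp (Finset.mem_coe.mp hi)) (h i h0)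

lemma finrank_span_image {ι : Type w} (b : Basis ι ℂ E) (J : Finset ι) :
    finrank ℂ (Submodule.span ℂ (b '' (J : Set ι))) = J.card := by
  classical
  have h := finrank_span_finset_eq_card (R := ℂ) (s := J.image b) (by
    rw [Finset.coe_image]
    exact (b.linearIndependent.linearIndepOn _).id_image)
  rw [Finset.coe_image] at h
  rw [h, Finset.card_image_of_injective _ b.injective]

end nat

section lcs

variable {E : Type u} [AddCommGroup E] [Module ℂ E]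

/-- lower central series `C_0 = E`, `C_{k+1} = C_k E` -/
noncomputable def lc (μ : E →ₗ[ℂ] E →ₗ[ℂ] E) : ℕ → Submodule ℂ E
  | 0 => ⊤
  | (k + 1) => Submodule.map₂ μ (lc μ k) ⊤

variable (μ : E →ₗ[ℂ] E →ₗ[ℂ] E)

lemma lc_succ (k : ℕ) : lc μ (k + 1) = Submodule.map₂ μ (lc μ k) ⊤ := rfl

lemma lc_anti (k : ℕ) : lc μ (k + 1) ≤ lc μ k := by
  induction k with
  | zero => exact le_top
  | succ k ih => exact Submodule.map₂_le_map₂ ih le_rfl

lemma lc_anti' {k m : ℕ} (h : k ≤ m) : lc μ m ≤ lc μ k := by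
  induction m, h using Nat.le_induction with
  | base => exact le_rfl
  | succ m _ ih => exact (lc_anti μ m).trans ih

lemma lc_const {k : ℕ} (h : lc μ (k + 1) = lc μ k) : ∀ m, k ≤ m → lc μ m = lc μ k := by
  intro m hm
  induction m, hm using Nat.le_induction with
  | base => rfl
  | succ m _ ih => rw [lc_succ, ih, ← lc_succ, h]

lemma lc_le_pw (k : ℕ) : lc μ k ≤ pw μ (k + 1) := by
  induction k with
  | zero => rw [pw]; exact le_top
  | succ k ih =>
    rw [lc_succ, pw]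
    refine le_trans ?_ (le_iSup _ (Fin.last k))
    refine Submodule.map₂_le_map₂ ?_ ?_
    · simpa using ih
    · have : k + 1 - ((Fin.last k : Fin (k + 1)) : ℕ) = 1 := by simp
      rw [this, pw]

lemma pw_le_lc (hc : ∀ x y, μ x y = μ y x) : ∀ (m j : ℕ), 2 ^ j + 1 ≤ m → pw μ m ≤ lc μ (j + 1) := by
  intro m
  induction m using Nat.strong_induction_on with
  | _ m ih =>
  intro j hj
  have hpos : 1 ≤ 2 ^ j := Nat.one_le_two_pow
  obtain ⟨k, rfl⟩ : ∃ k, m = k + 2 := ⟨m - 2, by omega⟩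
  rw [pw]
  refine iSup_le fun i => ?_
  have hi : (i : ℕ) < k + 1 := i.2
  rcases j with _ | j
  · exact Submodule.map₂_le_map₂ le_top le_top
  · have h2 : 2 ^ (j + 1) = 2 * 2 ^ j := by rw [pow_succ]; ring
    rcases le_or_gt (2 ^ j + 1) ((i : ℕ) + 1) with h | h
    · exact Submodule.map₂_le_map₂ (ih _ (by omega) j h) le_top
    · have h3 := ih (k + 1 - i) (by omega) j (by omega)
      rw [Submodule.map₂_le]
      intro x _ y hy
      rw [hc]
      exact Submodule.apply_mem_map₂ _ (h3 hy) trivial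

lemma pw_anti : ∀ m, pw μ (m + 1) ≤ pw μ m := by
  intro m
  induction m using Nat.strong_induction_on with
  | _ m ih =>
  match m with
  | 0 => rw [pw, pw]
  | 1 => rw [show pw μ 1 = ⊤ by rw [pw]]; exact le_top
  | (k + 2) =>
    conv_lhs => rw [show k + 2 + 1 = (k + 1) + 2 from rfl, pw]
    refine iSup_le fun i => ?_
    have hi : (i : ℕ) < k + 2 := i.2
    rcases Nat.lt_or_ge (i : ℕ) (k + 1) with h | h
    · have h1 : pw μ (k + 1 + 1 - i) ≤ pw μ (k + 1 - i) := by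
        have : k + 1 + 1 - (i : ℕ) = (k + 1 - i) + 1 := by omega
        rw [this]
        exact ih _ (by omega)
      refine (Submodule.map₂_le_map₂ le_rfl h1).trans ?_
      rw [pw.eq_3]
      exact le_iSup (fun i : Fin (k + 1) => Submodule.map₂ μ (pw μ (i + 1)) (pw μ (k + 1 - i)))
        ⟨i, h⟩
    · have hik : (i : ℕ) = k + 1 := by omega
      rw [hik]
      have h1 : pw μ (k + 1 + 1) ≤ pw μ (k + 1) := ih (k + 1) (by omega)
      have h2 : k + 1 + 1 - (k + 1) = 1 := by omega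
      rw [h2]
      refine (Submodule.map₂_le_map₂ h1 le_rfl).trans ?_
      rw [pw.eq_3]
      have h3 := le_iSup (fun i : Fin (k + 1) => Submodule.map₂ μ (pw μ (i + 1)) (pw μ (k + 1 - i)))
        (Fin.last k)
      have h4 : k + 1 - ((Fin.last k : Fin (k + 1)) : ℕ) = 1 := by simp
      simp only [h4] at h3
      simpa using h3

lemma pw_anti' {k m : ℕ} (h : k ≤ m) : pw μ m ≤ pw μ k := by
  induction m, h using Nat.le_induction with
  | base => exact le_rfl
  | succ m _ ih => exact (pw_anti μ m).trans ih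

lemma map₂_pw_le (a c : ℕ) (ha : 1 ≤ a) (hc : 1 ≤ c) :
    Submodule.map₂ μ (pw μ a) (pw μ c) ≤ pw μ (a + c) := by
  obtain ⟨a, rfl⟩ : ∃ a', a = a' + 1 := ⟨a - 1, by omega⟩
  obtain ⟨c, rfl⟩ : ∃ c', c = c' + 1 := ⟨c - 1, by omega⟩
  have : a + 1 + (c + 1) = (a + c) + 2 := by ring
  rw [this, pw.eq_3]
  have h3 := le_iSup (fun i : Fin (a + c + 1) =>
    Submodule.map₂ μ (pw μ (i + 1)) (pw μ (a + c + 1 - i))) ⟨a, by omega⟩
  have h4 : a + c + 1 - a = c + 1 := by omega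
  simp only [h4] at h3
  exact h3

lemma isNilp_iff (hc : ∀ x y, μ x y = μ y x) : IsNilp μ ↔ ∃ k, lc μ k = ⊥ := by
  constructor
  · rintro ⟨m, hm, h⟩
    refine ⟨m - 1, ?_⟩
    rw [eq_bot_iff, ← h]
    have := lc_le_pw μ (m - 1)
    rwa [show m - 1 + 1 = m by omega] at this
  · rintro ⟨k, h⟩
    refine ⟨2 ^ k + 1, Nat.le_add_left _ _, ?_⟩
    rw [eq_bot_iff, ← h]
    exact (pw_le_lc μ hc _ k le_rfl).trans (lc_anti μ k)

variable [FiniteDimensional ℂ E]

/-- finrank drops by one in each step until the series vanishes -/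
lemma lc_finrank {s d a : ℕ} (hn : ∃ k, lc μ k = ⊥) (ha : finrank ℂ (lc μ a) + a + d ≤ s) :
    ∀ k, a ≤ k → lc μ k = ⊥ ∨ finrank ℂ (lc μ k) + k + d ≤ s := by
  intro k hk
  induction k, hk using Nat.le_induction with
  | base => exact Or.inr ha
  | succ k hk ih =>
    rcases ih with h | h
    · left
      rw [eq_bot_iff, ← h]
      exact lc_anti μ k
    · by_cases he : lc μ (k + 1) = lc μ k
      · left
        obtain ⟨m, hm⟩ := hn
        have h1 := lc_const μ he (max k m) (le_max_left _ _)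
        have h2 : lc μ (max k m) = ⊥ := by
          rw [eq_bot_iff, ← hm]
          exact lc_anti' μ (le_max_right _ _)
        rw [he, ← h1, h2]
      · right
        have := Submodule.finrank_lt_finrank_of_lt (lt_of_le_of_ne (lc_anti μ k) he)
        omega

lemma lc_finrank_bot (hn : ∃ k, lc μ k = ⊥) : lc μ (finrank ℂ E) = ⊥ := by
  have h := lc_finrank μ (s := finrank ℂ E) (d := 0) (a := 0) hn (by
    rw [lc]; simp) (finrank ℂ E) (Nat.zero_le _)
  rcases h with h | h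
  · exact h
  · have : finrank ℂ (lc μ (finrank ℂ E)) = 0 := by omega
    exact Submodule.finrank_eq_zero.mp this

lemma lc_ne_of_ne_bot (hn : ∃ k, lc μ k = ⊥) {k : ℕ} (h : lc μ k ≠ ⊥) : lc μ (k + 1) ≠ lc μ k := by
  intro he
  obtain ⟨m, hm⟩ := hn
  have h1 := lc_const μ he (max k m) (le_max_left _ _)
  have h2 : lc μ (max k m) = ⊥ := by
    rw [eq_bot_iff, ← hm]
    exact lc_anti' μ (le_max_right _ _)
  exact h (h1 ▸ h2)

end lcs

end Pool.Agent.H6EV
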