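import Pool.Agent.H6EV.Split

/-!
Classification of the non-nilpotent evolution algebras with condition `P`.
-/

set_option autoImplicit false

namespace Pool.Agent.H6EV

open Module

universe u v w

section iso

variable {E : Type u} [AddCommGroup E] [Module ℂ E] {F : Type v} [AddCommGroup F] [Module ℂ F]
  {μ : E →ₗ[ℂ] E →ₗ[ℂ] E} {ν : F →ₗ[ℂ] F →ₗ[ℂ] F}

lemma iso_of_basis {ι : Type w} [Fintype ι] (b : Basis ι ℂ E) (c : Basis ι ℂ F)
    (hb : NaturalBasis μ b) (hc : NaturalBasis ν c)
    (h : ∀ i j, b.repr (μ (b i) (b i)) j = c.repr (ν (c i) (c i)) j) : Iso μ ν := by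
  refine ⟨b.repr.trans c.repr.symm, ?_⟩
  intro x y
  have h1 : ∀ z, c.repr ((b.repr.trans c.repr.symm) z) = b.repr z := fun z => by simp
  rw [mul_eq hb x y, map_sum, mul_eq hc]
  refine Finset.sum_congr rfl fun i _ => ?_
  rw [map_smul, h1, h1]
  congr 1
  apply c.repr.injective
  rw [h1]
  ext j
  exact h i j

lemma natural_prod {ι κ : Type*} {b : Basis ι ℂ E} {c : Basis κ ℂ F}
    (hb : NaturalBasis μ b) (hc : NaturalBasis ν c) : NaturalBasis (dsum μ ν) (b.prod c) := by
  rintro (i | i) (j | j) hij
  · simp only [Basis.prod_apply, Sum.elim_inl, Function.comp, LinearMap.coe_inl, dsum_apply]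
    rw [hb i j fun h => hij (by rw [h])]
    simp
  · simp [Basis.prod_apply]
  · simp [Basis.prod_apply]
  · simp only [Basis.prod_apply, Sum.elim_inr, Function.comp, LinearMap.coe_inr, dsum_apply]
    rw [hc i j fun h => hij (by rw [h])]
    simp

lemma natural_ES1 : NaturalBasis ES1 (Basis.singleton Unit ℂ) := by
  intro i j hij
  exact absurd (Subsingleton.elim i j) hij

lemma two_indep {ι : Type*} [DecidableEq ι] {f : ι → E} {J : Finset ι}
    (hind : ∀ y : ι → ℂ, ∑ i ∈ J, y i • f i = 0 → ∀ i ∈ J, y i = 0)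
    {i j : ι} (hi : i ∈ J) (hj : j ∈ J) (hij : i ≠ j) {a a' p p' : ℂ} {q : E}
    (ha : a ≠ 0) (ha' : a' ≠ 0) (h1 : a • f i = p • q) (h2 : a' • f j = p' • q) : False := by
  have h3 : ∑ k ∈ J, (if k = i then p' * a else if k = j then - (p * a') else 0) • f k = 0 := by
    have h4 : ∀ k ∈ J, (if k = i then p' * a else if k = j then - (p * a') else 0) • f k =
        (if k = i then (p' * a) • f i else 0) + (if k = j then (-(p * a')) • f j else 0) := by
      intro k _
      by_cases hki : k = i
      · subst hki; simp [hij]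
      · by_cases hkj : k = j
        · subst hkj; simp [hki]
        · simp [hki, hkj]
    rw [Finset.sum_congr rfl h4, Finset.sum_add_distrib, Finset.sum_ite_eq' J i,
      Finset.sum_ite_eq' J j, if_pos hi, if_pos hj, mul_smul, h1, neg_smul, mul_smul, h2,
      smul_smul, smul_smul, mul_comm]
    simp
  have h5 := hind _ h3 i hi
  simp only [if_true] at h5
  have hp' : p' = 0 := (mul_eq_zero.mp h5).resolve_right ha
  rw [hp', zero_smul] at h2
  have h7 : f j = 0 := (smul_eq_zero.mp h2).resolve_left ha'
  have h8 : ∑ k ∈ J, (if k = j then (1:ℂ) else 0) • f k = 0 := by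
    rw [Finset.sum_eq_single j]
    · simp [h7]
    · intro k _ hk; simp [hk]
    · intro h; exact absurd hj h
  have h9 := hind _ h8 j hj
  simp at h9

end iso

variable {E : Type u} [AddCommGroup E] [Module ℂ E] [FiniteDimensional ℂ E]
  {μ : E →ₗ[ℂ] E →ₗ[ℂ] E}

theorem classify (hE : IsEvolution μ) (hN : ¬ IsNilp μ) (hP : CondP μ) :
    Iso μ (dsum ES1 (0 : (Fin (finrank ℂ E - 1) → ℂ) →ₗ[ℂ] (Fin (finrank ℂ E - 1) → ℂ) →ₗ[ℂ]
      (Fin (finrank ℂ E - 1) → ℂ))) ∨
    ∃ s, 2 ≤ s ∧ s ≤ finrank ℂ E - 1 ∧
      ∃ ν : (Fin s → ℂ) →ₗ[ℂ] (Fin s → ℂ) →ₗ[ℂ] (Fin s → ℂ), ZN s ν ∧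
        Iso μ (dsum ES1 (dsum ν (0 : (Fin (finrank ℂ E - 1 - s) → ℂ) →ₗ[ℂ]
          (Fin (finrank ℂ E - 1 - s) → ℂ) →ₗ[ℂ] (Fin (finrank ℂ E - 1 - s) → ℂ)))) := by
  classical
  obtain ⟨b0, hb0⟩ := hE
  have hcomm := fun x y => mul_comm' hb0 x y
  obtain ⟨k, hk⟩ : ∃ k, lc μ (k + 1) = lc μ k := by
    obtain ⟨n, hn⟩ := IsArtinian.monotone_stabilizes (R := ℂ) (M := E)
      ⟨fun k => OrderDual.toDual (lc μ k), monotone_nat_of_le_succ fun k => lc_anti μ k⟩
    exact ⟨n, (OrderDual.toDual.injective (hn (n + 1) (Nat.le_succ n))).symm⟩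
  have hD0 : lc μ k ≠ ⊥ := fun h => hN ((isNilp_iff μ hcomm).mpr ⟨k, h⟩)
  obtain ⟨b, i, x, hx, hb, hDs, he⟩ := perfect_part hP (lc μ k) hk hD0
  obtain ⟨e, hedef⟩ : ∃ e, e = x • b i := ⟨_, rfl⟩
  rw [← hedef] at he
  have he0 : e ≠ 0 := by
    rw [hedef]; exact smul_ne_zero hx (b.ne_zero i)
  have hDe : lc μ k = Submodule.span ℂ {e} := by
    rw [hDs, hedef, Submodule.span_singleton_smul_eq (IsUnit.mk0 x hx)]
  have hsplit := split hP e he he0 ⟨k, hDe⟩
  set N0 : Submodule ℂ E := LinearMap.ker (μ e) with hN0
  set W : Submodule ℂ E := Submodule.map₂ μ N0 N0 with hWdef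
  have hWN : W ≤ N0 := by
    rw [hWdef, Submodule.map₂_le]
    intro z hz w hw
    exact hsplit z w hz hw
  have hWsub : IsSubalg μ W := fun z hz w hw => Submodule.apply_mem_map₂ _ (hWN hz) (hWN hw)
  have heN : e ∉ N0 := by
    intro h
    rw [hN0, LinearMap.mem_ker, he] at h
    exact he0 h
  obtain ⟨c, j1, J0, hc, hcj, hj1J0, hWJ0⟩ := adapted hP e he he0 W hWsub fun h => heN (hWN h)
  set J : Finset (Fin (finrank ℂ E)) := J0.toFinset with hJdef
  have hJ : (J : Set _) = J0 := Set.coe_toFinset J0
  rw [← hJ] at hWJ0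
  have hj1J : j1 ∉ J := fun h => hj1J0 (hJ ▸ Finset.mem_coe.mpr h)
  have hez : ∀ z, μ e z = c.repr z j1 • e := by
    intro z
    rw [← hcj, mul_comm' hc, mul_basis hc, hcj, he]
  have hN0c : N0 = Submodule.span ℂ (c '' {j | j ≠ j1}) := by
    ext z
    rw [mem_span_iff, hN0, LinearMap.mem_ker, hez, smul_eq_zero]
    constructor
    · rintro (h | h) i hi
      · simp only [Set.mem_setOf_eq, not_not] at hi
        rw [hi, h]
      · exact absurd h he0
    · intro h
      exact Or.inl (h j1 (by simp))
  have hWsq : W = Submodule.span ℂ ((fun i => μ (c i) (c i)) '' {j | j ≠ j1}) := by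
    apply le_antisymm
    · rw [hWdef, ← map₂_coord hc, ← hN0c]
      exact Submodule.map₂_le_map₂ le_rfl le_top
    · rw [hWdef, hN0c]
      exact coord_le_map₂ _
  set Ip : Finset (Fin (finrank ℂ E)) := Finset.univ.filter fun i => i ≠ j1 ∧ μ (c i) (c i) ≠ 0
    with hIp
  have hIpmem : ∀ i, i ∈ Ip ↔ i ≠ j1 ∧ μ (c i) (c i) ≠ 0 := fun i => by simp [hIp]
  have hWIp : W = Submodule.span ℂ ((fun i => μ (c i) (c i)) '' (Ip : Set _)) := by
    rw [hWsq]
    apply le_antisymm
    · rw [Submodule.span_le]
      rintro _ ⟨i, hi, rfl⟩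
      by_cases h : μ (c i) (c i) = 0
      · show μ (c i) (c i) ∈ _
        rw [h]; exact Submodule.zero_mem _
      · exact Submodule.subset_span ⟨i, Finset.mem_coe.mpr ((hIpmem i).mpr ⟨hi, h⟩), rfl⟩
    · apply Submodule.span_mono
      apply Set.image_mono
      intro i hi
      exact ((hIpmem i).mp (Finset.mem_coe.mp hi)).1
  have hind : ∀ y : Fin (finrank ℂ E) → ℂ, ∑ i ∈ Ip, y i • μ (c i) (c i) = 0 →
      ∀ i ∈ Ip, y i = 0 := by
    intro y hy i hi
    have hr : ∀ i, ∃ r : ℂ, r ^ 2 = y i := fun i => IsAlgClosed.exists_pow_nat_eq (y i) (by norm_num)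
    choose r hr using hr
    have huu : μ (∑ i ∈ Ip, r i • c i) (∑ i ∈ Ip, r i • c i) = 0 := by
      rw [sq_sum hc, ← hy]
      exact Finset.sum_congr rfl fun i _ => by rw [hr]
    obtain ⟨d, hd⟩ := R1 hP (∑ i ∈ Ip, r i • c i) (by rw [huu]; exact Submodule.zero_mem _) (c i)
    rw [huu, smul_zero, mul_basis hc, repr_sum', if_pos hi, smul_eq_zero] at hd
    rcases hd with h | h
    · rw [← hr, h]; norm_num
    · exact absurd h ((hIpmem i).mp hi).2
  have hliIp : LinearIndepOn ℂ (fun i => μ (c i) (c i)) (Ip : Set _) :=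
    linearIndepOn_finset_iff.mpr hind
  have hcardIJ : Ip.card = J.card := by
    rw [← finrank_image hliIp, ← hWIp, hWJ0, finrank_span_image]
  have hcardn : (Finset.univ.erase j1).card = finrank ℂ E - 1 := by
    rw [Finset.card_erase_of_mem (Finset.mem_univ _), Finset.card_univ, Fintype.card_fin]
  rcases Finset.eq_empty_or_nonempty Ip with hIe | hIne
  · left
    have hsq0 : ∀ i, i ≠ j1 → μ (c i) (c i) = 0 := by
      intro i hi
      by_contra h
      have : i ∈ Ip := (hIpmem i).mpr ⟨hi, h⟩
      rw [hIe] at this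
      exact absurd this (Finset.notMem_empty _)
    let τ : Fin (finrank ℂ E - 1) ≃ (Finset.univ.erase j1 : Finset (Fin (finrank ℂ E))) :=
      (Finset.equivFinOfCardEq hcardn).symm
    let f : Unit ⊕ Fin (finrank ℂ E - 1) → Fin (finrank ℂ E) :=
      Sum.elim (fun _ => j1) (fun m => (τ m : Fin (finrank ℂ E)))
    have hτ : ∀ m, (τ m : Fin (finrank ℂ E)) ≠ j1 := fun m => (Finset.mem_erase.mp (τ m).2).1
    have hf : Function.Bijective f := by
      constructor
      · rintro (a | a) (a' | a') h
        · rfl
        · exact absurd h.symm (hτ a')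
        · exact absurd h (hτ a)
        · congr 1
          exact τ.injective (Subtype.ext h)
      · intro i
        by_cases h : i = j1
        · exact ⟨Sum.inl (), h.symm⟩
        · refine ⟨Sum.inr (τ.symm ⟨i, Finset.mem_erase.mpr ⟨h, Finset.mem_univ _⟩⟩), ?_⟩
          simp [f]
    let B := c.reindex (Equiv.ofBijective f hf).symm
    have hB : ∀ i, B i = c (f i) := fun i => by simp [B]
    have hBr : ∀ z i, B.repr z i = c.repr z (f i) := fun z i => by
      simp [B, Basis.repr_reindex_apply]
    refine iso_of_basis B ((Basis.singleton Unit ℂ).prod (Pi.basisFun ℂ _)) ?_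
      (natural_prod natural_ES1 (fun i j _ => rfl)) ?_
    · intro i j hij
      rw [hB, hB]
      exact hc _ _ fun h => hij (hf.1 h)
    · rintro (i | i) j
      · rw [hB, hBr]
        have h1 : f (Sum.inl i) = j1 := rfl
        rw [h1, hcj, he, ← hcj, Basis.repr_self, Finsupp.single_apply]
        rcases j with j | j
        · rw [if_pos (show j1 = f (Sum.inl j) from rfl), Basis.prod_repr_inl]
          simp [Basis.prod_apply]
        · rw [if_neg, Basis.prod_repr_inr]
          · simp [Basis.prod_apply]
          · exact fun h => hτ j h.symm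
      · have h0 : μ (c (f (Sum.inr i))) (c (f (Sum.inr i))) = 0 := hsq0 _ (hτ i)
        rw [hB, hBr, h0]
        rcases j with j | j
        · rw [Basis.prod_repr_inl]
          simp [Basis.prod_apply]
        · rw [Basis.prod_repr_inr]
          simp [Basis.prod_apply]
  · right
    -- at most one generator outside `J`
    have hone : (Ip \ J).card ≤ 1 := by
      by_contra hcon
      obtain ⟨i, hi, i', hi', hii'⟩ := Finset.one_lt_card.mp (not_le.mp hcon)
      rw [Finset.mem_sdiff] at hi hi'
      set u := c i + c i' with hu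
      have hrepr : ∀ j l, c.repr (c j) l = if j = l then 1 else 0 := fun j l => by
        rw [Basis.repr_self, Finsupp.single_apply]
      have huN : u ∈ N0 := by
        rw [hN0, LinearMap.mem_ker, hez, hu, map_add, Finsupp.add_apply, hrepr, hrepr,
          if_neg ((hIpmem i).mp hi.1).1, if_neg ((hIpmem i').mp hi'.1).1]
        simp
      have hS'N : Submodule.span ℂ {u} ⊔ W ≤ N0 :=
        sup_le (by rw [Submodule.span_le, Set.singleton_subset_iff]; exact huN) hWN
      have hsub : IsSubalg μ (Submodule.span ℂ {u} ⊔ W) := fun z hz w hw =>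
        Submodule.mem_sup_right (Submodule.apply_mem_map₂ _ (hS'N hz) (hS'N hw))
      obtain ⟨d, K, hd, hK⟩ := hP _ hsub
      have hui : c.repr u i = 1 := by
        rw [hu, map_add, Finsupp.add_apply, hrepr, hrepr, if_pos rfl, if_neg hii'.symm, add_zero]
      have hui' : c.repr u i' = 1 := by
        rw [hu, map_add, Finsupp.add_apply, hrepr, hrepr, if_pos rfl, if_neg hii', zero_add]
      have hWi : ∀ w ∈ W, ∀ l, l ∉ J → c.repr w l = 0 := by
        intro w hw l hl
        rw [hWJ0] at hw
        exact (mem_span_iff _ w).mp hw l fun h => hl (Finset.mem_coe.mp h)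
      obtain ⟨l, hlK, hl⟩ : ∃ l ∈ K, d l ∉ W := by
        by_contra h
        push Not at h
        have h1 : Submodule.span ℂ (d '' K) ≤ W := by
          rw [Submodule.span_le]
          rintro _ ⟨l, hl, rfl⟩
          exact h l hl
        have h2 : u ∈ W := h1 (by
          rw [← hK]; exact Submodule.mem_sup_left (Submodule.mem_span_singleton_self u))
        have h3 := hWi u h2 i hi.2
        rw [hui] at h3
        exact one_ne_zero h3
      have hdl : d l ∈ Submodule.span ℂ {u} ⊔ W := by
        rw [hK]; exact Submodule.subset_span ⟨l, hlK, rfl⟩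
      obtain ⟨x1, hx1, w, hw, hxw⟩ := Submodule.mem_sup.mp hdl
      obtain ⟨p, rfl⟩ := Submodule.mem_span_singleton.mp hx1
      have hp : p ≠ 0 := by
        rintro rfl
        rw [zero_smul, zero_add] at hxw
        exact hl (hxw ▸ hw)
      have hci : c.repr (d l) i = p := by
        rw [← hxw, map_add, map_smul, Finsupp.add_apply, Finsupp.smul_apply, hui, hWi w hw i hi.2]
        simp
      have hci' : c.repr (d l) i' = p := by
        rw [← hxw, map_add, map_smul, Finsupp.add_apply, Finsupp.smul_apply, hui',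
          hWi w hw i' hi'.2]
        simp
      have h1 : μ (d l) (c i) = p • μ (c i) (c i) := by rw [mul_basis hc, hci]
      have h2 : μ (d l) (c i') = p • μ (c i') (c i') := by rw [mul_basis hc, hci']
      have h3 : μ (d l) (c i) = d.repr (c i) l • μ (d l) (d l) := by
        rw [hcomm, mul_basis hd]
      have h4 : μ (d l) (c i') = d.repr (c i') l • μ (d l) (d l) := by
        rw [hcomm, mul_basis hd]
      exact two_indep hind hi.1 hi'.1 hii' hp hp (h1.symm.trans h3) (h2.symm.trans h4)
    -- not all generators are in `J`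
    have hnsub : ¬ Ip ⊆ J := by
      intro hsubset
      have hIJ : Ip = J := Finset.eq_of_subset_of_card_le hsubset hcardIJ.ge
      have hWW : Submodule.map₂ μ W ⊤ = W := by
        conv_lhs => rw [hWJ0]
        rw [map₂_coord hc, ← hIJ, ← hWIp]
      have hWlc : ∀ m, W ≤ lc μ m := by
        intro m
        induction m with
        | zero => exact le_top
        | succ m ih =>
          rw [lc_succ, ← hWW]
          exact Submodule.map₂_le_map₂ ih le_rfl
      have hWbot : W = ⊥ := by
        rw [eq_bot_iff]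
        intro w hw
        have h1 := hWlc k hw
        rw [hDe] at h1
        obtain ⟨a, rfl⟩ := Submodule.mem_span_singleton.mp h1
        have h2 := hWN hw
        rw [hN0, LinearMap.mem_ker, map_smul, he] at h2
        rw [Submodule.mem_bot]
        exact h2
      have h3 := finrank_image hliIp
      rw [← hWIp, hWbot, finrank_bot] at h3
      exact hIne.ne_empty (Finset.card_eq_zero.mp h3.symm)
    have hcardI : (Ip \ J).card = 1 := by
      refine le_antisymm hone ?_
      rw [Nat.one_le_iff_ne_zero, Ne, Finset.card_eq_zero, Finset.sdiff_eq_empty_iff_subset]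
      exact hnsub
    have hcardJ : (J \ Ip).card = 1 := by
      rw [Finset.card_sdiff_comm hcardIJ.symm]
      exact hcardI
    obtain ⟨j0, hj0⟩ := Finset.card_eq_one.mp hcardJ
    have hj0m : j0 ∈ J ∧ j0 ∉ Ip := by
      rw [← Finset.mem_sdiff, hj0]; exact Finset.mem_singleton_self _
    have hj01 : j0 ≠ j1 := fun h => hj1J (h ▸ hj0m.1)
    have hsqj0 : μ (c j0) (c j0) = 0 := by
      by_contra h
      exact hj0m.2 ((hIpmem j0).mpr ⟨hj01, h⟩)
    set T : Finset (Fin (finrank ℂ E)) := insert j0 Ip with hTdef
    have hJT : J ⊆ T := by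
      intro j hj
      by_cases h : j ∈ Ip
      · exact Finset.mem_insert_of_mem h
      · have : j ∈ J \ Ip := Finset.mem_sdiff.mpr ⟨hj, h⟩
        rw [hj0, Finset.mem_singleton] at this
        rw [this]; exact Finset.mem_insert_self _ _
    have hTcard : T.card = Ip.card + 1 := Finset.card_insert_of_notMem hj0m.2
    have hTj1 : ∀ i ∈ T, i ≠ j1 := by
      intro i hi
      rcases Finset.mem_insert.mp hi with rfl | hi
      · exact hj01
      · exact ((hIpmem i).mp hi).1
    have hTsq : ∀ i ∈ T, ∀ l, l ∉ T → c.repr (μ (c i) (c i)) l = 0 := by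
      intro i hi l hl
      rcases Finset.mem_insert.mp hi with rfl | hi
      · rw [hsqj0]; simp
      · have h1 : μ (c i) (c i) ∈ W := by
          rw [hWIp]; exact Submodule.subset_span ⟨i, Finset.mem_coe.mpr hi, rfl⟩
        rw [hWJ0] at h1
        exact (mem_span_iff _ _).mp h1 l fun h => hl (hJT (Finset.mem_coe.mp h))
    have hoff : ∀ i, i ≠ j1 → i ∉ T → μ (c i) (c i) = 0 := by
      intro i hi hiT
      by_contra h
      exact hiT (Finset.mem_insert_of_mem ((hIpmem i).mpr ⟨hi, h⟩))
    have hIpos : 1 ≤ Ip.card := Finset.card_pos.mpr hIne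
    obtain ⟨s, hs⟩ : ∃ s, T.card = s := ⟨_, rfl⟩
    have hs2 : 2 ≤ s := by omega
    have hsn : s ≤ finrank ℂ E - 1 := by
      rw [← hs, ← hcardn]
      exact Finset.card_le_card fun i hi => Finset.mem_erase.mpr ⟨hTj1 i hi, Finset.mem_univ _⟩
    let σ : Fin s ≃ T := (Finset.equivFinOfCardEq hs).symm
    let A : Fin s → Fin s → ℂ := fun p q => c.repr (μ (c (σ p)) (c (σ p))) (σ q)
    let Φ : (Fin s → ℂ) →ₗ[ℂ] E := Fintype.linearCombination ℂ fun p => c (σ p)
    have hΦ : ∀ y, Φ y = ∑ p, y p • c (σ p) := fun y =>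
      Fintype.linearCombination_apply _ _ _
    have hAsq : ∀ p, Φ (A p) = μ (c (σ p)) (c (σ p)) := by
      intro p
      rw [hΦ]
      conv_rhs => rw [← c.sum_repr (μ (c (σ p)) (c (σ p)))]
      rw [← Finset.sum_subset (Finset.subset_univ T) (fun l _ hl => by
        rw [hTsq _ (σ p).2 l hl, zero_smul]), ← Finset.sum_coe_sort T]
      exact Fintype.sum_equiv σ _ _ fun q => rfl
    have hΦmul : ∀ y z, μ (Φ y) (Φ z) = Φ (evol A y z) := by
      intro y z
      have h1 : Φ (evol A y z) = ∑ p, (y p * z p) • μ (c (σ p)) (c (σ p)) := by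
        have h2 : evol A y z = ∑ p, (y p * z p) • A p := by
          funext q
          rw [evol_apply, Finset.sum_apply]
          rfl
        rw [h2, map_sum]
        exact Finset.sum_congr rfl fun p _ => by rw [map_smul, hAsq]
      rw [h1, hΦ y, hΦ z, LinearMap.map_sum₂]
      refine Finset.sum_congr rfl fun p _ => ?_
      rw [map_sum, Finset.sum_eq_single p]
      · rw [map_smul, LinearMap.map_smul₂, smul_smul, mul_comm]
      · intro q _ hq
        rw [map_smul, LinearMap.map_smul₂,
          hc _ _ fun h => hq (σ.injective (Subtype.ext h.symm)), smul_zero, smul_zero]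
      · intro h; exact absurd (Finset.mem_univ p) h
    have hΦinj : ∀ y, Φ y = 0 → y = 0 := by
      intro y hy
      have h1 : LinearIndependent ℂ fun p : Fin s => c (σ p) :=
        c.linearIndependent.comp (fun p => (σ p : Fin (finrank ℂ E)))
          fun p q h => σ.injective (Subtype.ext h)
      funext p
      rw [hΦ] at hy
      exact Fintype.linearIndependent_iff.mp h1 y hy p
    have hnil : ∃ m, lc (evol A) m = ⊥ := by
      have h1 : ∀ m, lc (evol A) m ≤ (lc μ m).comap Φ := by
        intro m
        induction m with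
        | zero => intro y _; exact trivial
        | succ m ih =>
          rw [lc_succ, Submodule.map₂_le]
          intro y hy z _
          rw [Submodule.mem_comap, ← hΦmul, lc_succ]
          exact Submodule.apply_mem_map₂ _ (ih hy) trivial
      refine ⟨k, ?_⟩
      rw [eq_bot_iff]
      intro y hy
      have h2 : Φ y ∈ lc μ k := h1 k hy
      rw [hDe] at h2
      obtain ⟨a, ha⟩ := Submodule.mem_span_singleton.mp h2
      have h3 : μ e (Φ y) = 0 := by
        rw [hΦ, map_sum]
        refine Finset.sum_eq_zero fun p _ => ?_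
        rw [map_smul, ← hcj, hc _ _ (hTj1 _ (σ p).2).symm, smul_zero]
      rw [← ha, map_smul, he, ha] at h3
      rw [Submodule.mem_bot]
      exact hΦinj y h3
    have hev := isEvolution_of_basis (evol A) (evol_natural A)
    have hnilp : IsNilp (evol A) := (isNilp_iff _ (evol_comm A)).mpr hnil
    have hne : pw (evol A) (2 ^ (s - 1)) ≠ ⊥ := by
      have hj0T : j0 ∈ T := Finset.mem_insert_self _ _
      have h1 := pw_ne_bot_of_flag (evol_natural A) (σ.symm ⟨j0, hj0T⟩) (by
        rw [evol_sq]
        apply hΦinj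
        rw [hAsq]
        simpa using hsqj0) (by
        have h2 : LinearIndependent ℂ (fun p : {p : Fin s // p ≠ σ.symm ⟨j0, hj0T⟩} => A p) := by
          apply LinearIndependent.of_comp Φ
          have h3 : ∀ p : {p : Fin s // p ≠ σ.symm ⟨j0, hj0T⟩},
              ((σ p : T) : Fin (finrank ℂ E)) ∈ Ip := by
            intro p
            have h4 := (σ p.1).2
            rcases Finset.mem_insert.mp h4 with h | h
            · exfalso
              apply p.2
              rw [Equiv.eq_symm_apply]
              exact Subtype.ext h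
            · exact h
          have h5 := hliIp.comp (fun p : {p : Fin s // p ≠ σ.symm ⟨j0, hj0T⟩} =>
            (⟨σ p, h3 p⟩ : (Ip : Set (Fin (finrank ℂ E))))) (by
              intro p q h
              apply Subtype.ext
              apply σ.injective
              apply Subtype.ext
              exact congrArg (fun x : (Ip : Set (Fin (finrank ℂ E))) => (x : Fin (finrank ℂ E))) h)
          have h6 : (Φ ∘ fun p : {p : Fin s // p ≠ σ.symm ⟨j0, hj0T⟩} => A p) =
              ((fun x : (Ip : Set (Fin (finrank ℂ E))) => μ (c x) (c x)) ∘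
                fun p : {p : Fin s // p ≠ σ.symm ⟨j0, hj0T⟩} => ⟨σ p, h3 p⟩) := by
            funext p
            exact hAsq p
          rw [h6]
          exact h5
        have h7 : (fun p => evol A (Pi.basisFun ℂ (Fin s) p) (Pi.basisFun ℂ (Fin s) p)) = A := by
          funext p
          exact evol_sq A p
        rw [h7]
        exact h2) hnil
      simpa using h1
    have hfs : finrank ℂ (Fin s → ℂ) = s := by simp
    refine ⟨s, hs2, hsn, evol A, ⟨hev, hnilp, ?_⟩, ?_⟩
    · intro ν' hν' hn'
      obtain ⟨b', hb'⟩ := hν'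
      have hc' := fun x y => mul_comm' hb' x y
      have h1 := nilIndex_le ν' hc' ((isNilp_iff ν' hc').mp hn') (by rw [hfs]; omega)
      rw [hfs] at h1
      exact h1.trans (le_nilIndex (evol A) hnilp hne)
    · have hRcard : (Finset.univ \ insert j1 T).card = finrank ℂ E - 1 - s := by
        rw [Finset.card_sdiff_of_subset (Finset.subset_univ _), Finset.card_univ,
          Fintype.card_fin, Finset.card_insert_of_notMem fun h => hTj1 j1 h rfl, hs]
        omega
      let τ : Fin (finrank ℂ E - 1 - s) ≃
          (Finset.univ \ insert j1 T : Finset (Fin (finrank ℂ E))) :=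
        (Finset.equivFinOfCardEq hRcard).symm
      have hτ : ∀ m, (τ m : Fin (finrank ℂ E)) ≠ j1 ∧ (τ m : Fin (finrank ℂ E)) ∉ T := by
        intro m
        have := (Finset.mem_sdiff.mp (τ m).2).2
        rw [Finset.mem_insert, not_or] at this
        exact this
      let f : Unit ⊕ (Fin s ⊕ Fin (finrank ℂ E - 1 - s)) → Fin (finrank ℂ E) :=
        Sum.elim (fun _ => j1) (Sum.elim (fun p => (σ p : Fin (finrank ℂ E)))
          (fun m => (τ m : Fin (finrank ℂ E))))
      have hf1 : ∀ p : Fin s, f (Sum.inr (Sum.inl p)) = σ p := fun p => rfl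
      have hf2 : ∀ m, f (Sum.inr (Sum.inr m)) = τ m := fun m => rfl
      have hf : Function.Bijective f := by
        constructor
        · rintro (a | a | a) (a' | a' | a') h
          · rfl
          · exact absurd h.symm (hTj1 _ (σ a').2)
          · exact absurd h.symm (hτ a').1
          · exact absurd h (hTj1 _ (σ a).2)
          · congr 2
            exact σ.injective (Subtype.ext h)
          · exact absurd ((show (σ a : Fin (finrank ℂ E)) = τ a' from h) ▸ (σ a).2) (hτ a').2
          · exact absurd h (hτ a).1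
          · exact absurd ((show (σ a' : Fin (finrank ℂ E)) = τ a from h.symm) ▸ (σ a').2) (hτ a).2
          · congr 2
            exact τ.injective (Subtype.ext h)
        · intro i
          by_cases h : i = j1
          · exact ⟨Sum.inl (), h.symm⟩
          · by_cases hiT : i ∈ T
            · refine ⟨Sum.inr (Sum.inl (σ.symm ⟨i, hiT⟩)), ?_⟩
              rw [hf1, Equiv.apply_symm_apply]
            · refine ⟨Sum.inr (Sum.inr (τ.symm ⟨i, Finset.mem_sdiff.mpr ⟨Finset.mem_univ _, ?_⟩⟩)),
                ?_⟩
              · rw [Finset.mem_insert, not_or]; exact ⟨h, hiT⟩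
              · rw [hf2, Equiv.apply_symm_apply]
      let B := c.reindex (Equiv.ofBijective f hf).symm
      have hB : ∀ i, B i = c (f i) := fun i => by simp [B]
      have hBr : ∀ z i, B.repr z i = c.repr z (f i) := fun z i => by
        simp [B, Basis.repr_reindex_apply]
      refine iso_of_basis B ((Basis.singleton Unit ℂ).prod ((Pi.basisFun ℂ _).prod
        (Pi.basisFun ℂ _))) ?_
        (natural_prod natural_ES1 (natural_prod (evol_natural A) (fun i j _ => rfl))) ?_
      · intro i j hij
        rw [hB, hB]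
        exact hc _ _ fun h => hij (hf.1 h)
      · rintro (i | i | i) j
        · rw [hB, hBr]
          have h1 : f (Sum.inl i) = j1 := rfl
          rw [h1, hcj, he, ← hcj, Basis.repr_self, Finsupp.single_apply]
          rcases j with j | j | j
          · rw [if_pos (show j1 = f (Sum.inl j) from rfl), Basis.prod_repr_inl]
            simp [Basis.prod_apply]
          · rw [if_neg (fun h => hTj1 _ (σ j).2 h.symm), Basis.prod_repr_inr, Basis.prod_repr_inl]
            simp [Basis.prod_apply]
          · rw [if_neg (fun h => (hτ j).1 h.symm), Basis.prod_repr_inr, Basis.prod_repr_inr]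
            simp [Basis.prod_apply]
        · rw [hB, hBr, hf1]
          rcases j with j | j | j
          · rw [Basis.prod_repr_inl]
            have h1 : f (Sum.inl j) = j1 := rfl
            rw [h1, hTsq _ (σ i).2 j1 fun h => hTj1 j1 h rfl]
            simp [Basis.prod_apply]
          · rw [Basis.prod_repr_inr, Basis.prod_repr_inl, hf1]
            simp only [Basis.prod_apply, Sum.elim_inr, Function.comp, LinearMap.coe_inr,
              dsum_apply, Sum.elim_inl, LinearMap.coe_inl]
            rw [evol_sq]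
            simp [A]
          · rw [Basis.prod_repr_inr, Basis.prod_repr_inr, hf2, hTsq _ (σ i).2 _ (hτ j).2]
            simp [Basis.prod_apply]
        · rw [hB, hBr, hf2, hoff _ (hτ i).1 (hτ i).2]
          rcases j with j | j | j
          · rw [Basis.prod_repr_inl]
            simp [Basis.prod_apply]
          · rw [Basis.prod_repr_inr, Basis.prod_repr_inl]
            simp [Basis.prod_apply]
          · rw [Basis.prod_repr_inr, Basis.prod_repr_inr]
            simp [Basis.prod_apply]

end Pool.Agent.H6EV
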