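import Pool.Agent.H6EV.Basic

/-!
Nilpotent evolution algebras with `dim E^2 = dim E - 1`, index of nilpotency.
-/

set_option autoImplicit false

namespace Pool.Agent.H6EV

open Module

universe u v w

section flag

variable {E : Type u} [AddCommGroup E] [Module ℂ E] {ι : Type w}
  {μ : E →ₗ[ℂ] E →ₗ[ℂ] E} {b : Basis ι ℂ E}

lemma finrank_image {f : ι → E} {J : Finset ι} (h : LinearIndepOn ℂ f (J : Set ι)) :
    finrank ℂ (Submodule.span ℂ (f '' (J : Set ι))) = J.card := by
  classical
  have h1 := finrank_span_finset_eq_card (R := ℂ) (s := J.image f) (by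
    rw [Finset.coe_image]
    exact h.id_image)
  rw [Finset.coe_image] at h1
  rw [h1, Finset.card_image_of_injOn h.injOn]

lemma span_erase [DecidableEq ι] (f : ι → E) (j0 : ι) (h0 : f j0 = 0) (J : Finset ι) :
    Submodule.span ℂ (f '' (J : Set ι)) = Submodule.span ℂ (f '' ((J.erase j0 : Finset ι) : Set ι)) := by
  apply le_antisymm
  · rw [Submodule.span_le]
    rintro _ ⟨i, hi, rfl⟩
    by_cases h : i = j0
    · rw [h, h0]; exact Submodule.zero_mem _
    · exact Submodule.subset_span ⟨i, Finset.mem_coe.mpr (Finset.mem_erase.mpr ⟨h, hi⟩), rfl⟩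
  · exact Submodule.span_mono (Set.image_mono (Finset.coe_subset.mpr (Finset.erase_subset _ _)))

variable [Fintype ι]

lemma map₂_coord (hb : NaturalBasis μ b) (J : Set ι) :
    Submodule.map₂ μ (Submodule.span ℂ (b '' J)) ⊤ =
      Submodule.span ℂ ((fun i => μ (b i) (b i)) '' J) := by
  apply le_antisymm
  · rw [Submodule.map₂_le]
    intro x hx y _
    rw [mul_eq hb]
    refine Submodule.sum_mem _ fun i _ => ?_
    by_cases hi : i ∈ J
    · exact Submodule.smul_mem _ _ (Submodule.subset_span ⟨i, hi, rfl⟩)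
    · rw [(mem_span_iff J x).mp hx i hi, zero_mul, zero_smul]
      exact Submodule.zero_mem _
  · rw [Submodule.span_le]
    rintro _ ⟨i, hi, rfl⟩
    exact Submodule.apply_mem_map₂ _ (Submodule.subset_span ⟨i, hi, rfl⟩) trivial

lemma coord_le_map₂ (J : Set ι) :
    Submodule.span ℂ ((fun i => μ (b i) (b i)) '' J) ≤
      Submodule.map₂ μ (Submodule.span ℂ (b '' J)) (Submodule.span ℂ (b '' J)) := by
  rw [Submodule.span_le]
  rintro _ ⟨i, hi, rfl⟩
  exact Submodule.apply_mem_map₂ _ (Submodule.subset_span ⟨i, hi, rfl⟩)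
    (Submodule.subset_span ⟨i, hi, rfl⟩)

lemma flag [FiniteDimensional ℂ E] (hb : NaturalBasis μ b) (j0 : ι) (h0 : μ (b j0) (b j0) = 0)
    (hli : LinearIndepOn ℂ (fun i => μ (b i) (b i)) {i | i ≠ j0}) (hn : ∃ k, lc μ k = ⊥) :
    ∀ k, k ≤ Fintype.card ι → ∃ J : Finset ι, J.card = Fintype.card ι - k ∧
      lc μ k = Submodule.span ℂ (b '' (J : Set ι)) := by
  classical
  intro k
  induction k with
  | zero =>
    intro _
    refine ⟨Finset.univ, by simp [Finset.card_univ], ?_⟩
    rw [lc, Finset.coe_univ, Set.image_univ, b.span_eq]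
  | succ k ih =>
    intro hk
    obtain ⟨J, hJ, hlc⟩ := ih (by omega)
    have hJ1 : 1 ≤ J.card := by omega
    have hs : lc μ (k + 1) = Submodule.span ℂ ((fun i => μ (b i) (b i)) '' (J : Set ι)) := by
      rw [lc_succ, hlc, map₂_coord hb]
    have hfk : finrank ℂ (lc μ k) = J.card := by rw [hlc, finrank_span_image]
    have hkb : lc μ k ≠ ⊥ := by
      intro h
      rw [h, finrank_bot] at hfk
      omega
    have hj0 : j0 ∈ J := by
      by_contra hj
      have h1 : LinearIndepOn ℂ (fun i => μ (b i) (b i)) (J : Set ι) :=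
        hli.mono fun i hi => by rintro rfl; exact hj hi
      have h2 : finrank ℂ (lc μ (k + 1)) = J.card := by rw [hs, finrank_image h1]
      exact lc_ne_of_ne_bot μ hn hkb (Submodule.eq_of_le_of_finrank_le (lc_anti μ k) (by omega))
    have hs' := hs
    rw [span_erase _ j0 h0] at hs'
    have hli' : LinearIndepOn ℂ (fun i => μ (b i) (b i)) ((J.erase j0 : Finset ι) : Set ι) :=
      hli.mono fun i hi => (Finset.mem_erase.mp (Finset.mem_coe.mp hi)).1
    have hf1 : finrank ℂ (lc μ (k + 1)) = Fintype.card ι - (k + 1) := by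
      rw [hs', finrank_image hli', Finset.card_erase_of_mem hj0]
      omega
    by_cases hbot : lc μ (k + 1) = ⊥
    · refine ⟨∅, ?_, ?_⟩
      · rw [hbot, finrank_bot] at hf1
        simpa using hf1
      · rw [hbot]; simp
    · let H : Finset ι := J.filter fun j => ∃ x ∈ lc μ (k + 1), b.repr x j ≠ 0
      have hle : lc μ (k + 1) ≤ Submodule.span ℂ (b '' (H : Set ι)) := by
        intro x hx
        rw [mem_span_iff]
        intro i hi
        by_contra hne
        apply hi
        have hx2 : x ∈ Submodule.span ℂ (b '' (J : Set ι)) := by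
          rw [← hlc]; exact lc_anti μ k hx
        have hiJ : i ∈ J := by
          by_contra h
          exact hne ((mem_span_iff (J : Set ι) x).mp hx2 i h)
        exact Finset.mem_coe.mpr (Finset.mem_filter.mpr ⟨hiJ, x, hx, hne⟩)
      have hne : H ≠ J := by
        intro hHJ
        have h2 : lc μ (k + 1) ≤ lc μ (k + 1 + 1) := by
          conv_lhs => rw [hs]
          rw [Submodule.span_le]
          rintro _ ⟨i, hi, rfl⟩
          rw [Finset.mem_coe, ← hHJ, Finset.mem_filter] at hi
          obtain ⟨_, x, hx, hxi⟩ := hi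
          have h3 : μ x (b i) ∈ lc μ (k + 1 + 1) := by
            rw [lc_succ]
            exact Submodule.apply_mem_map₂ _ hx trivial
          rw [mul_basis hb] at h3
          exact (Submodule.smul_mem_iff _ hxi).mp h3
        exact lc_ne_of_ne_bot μ hn hbot (le_antisymm (lc_anti μ _) h2)
      have hlt : H.card < J.card :=
        Finset.card_lt_card (lt_of_le_of_ne (Finset.filter_subset _ _) hne)
      have h4 := Submodule.finrank_mono hle
      rw [finrank_span_image] at h4
      refine ⟨H, by omega, Submodule.eq_of_le_of_finrank_le hle ?_⟩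
      rw [finrank_span_image]
      omega

lemma pw_ne_bot_of_flag [FiniteDimensional ℂ E] (hb : NaturalBasis μ b) (j0 : ι)
    (h0 : μ (b j0) (b j0) = 0)
    (hli : LinearIndepOn ℂ (fun i => μ (b i) (b i)) {i | i ≠ j0}) (hn : ∃ k, lc μ k = ⊥) :
    pw μ (2 ^ (Fintype.card ι - 1)) ≠ ⊥ := by
  classical
  have hF := flag hb j0 h0 hli hn
  have hle : ∀ k, k ≤ Fintype.card ι → lc μ k ≤ pw μ (2 ^ k) := by
    intro k
    induction k with
    | zero => intro _; rw [pow_zero, pw]; exact le_top
    | succ k ih =>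
      intro hk
      obtain ⟨J, _, hlc⟩ := hF k (by omega)
      have h1 : lc μ (k + 1) ≤ Submodule.map₂ μ (lc μ k) (lc μ k) := by
        rw [lc_succ, hlc, map₂_coord hb]
        exact coord_le_map₂ _
      refine h1.trans ((Submodule.map₂_le_map₂ (ih (by omega)) (ih (by omega))).trans ?_)
      have := map₂_pw_le μ (2 ^ k) (2 ^ k) Nat.one_le_two_pow Nat.one_le_two_pow
      rwa [← two_mul, ← pow_succ'] at this
  have hpos : 0 < Fintype.card ι := Fintype.card_pos_iff.mpr ⟨j0⟩
  intro h
  obtain ⟨J, hJ, hlc⟩ := hF (Fintype.card ι - 1) (by omega)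
  have h2 := hle (Fintype.card ι - 1) (by omega)
  rw [h, le_bot_iff] at h2
  have h3 := finrank_span_image b J
  rw [← hlc, h2, finrank_bot] at h3
  omega

end flag

section idx

variable {E : Type u} [AddCommGroup E] [Module ℂ E] [FiniteDimensional ℂ E]
  (μ : E →ₗ[ℂ] E →ₗ[ℂ] E)

lemma nilIndex_le (hc : ∀ x y, μ x y = μ y x) (hn : ∃ k, lc μ k = ⊥) (hs : 1 ≤ finrank ℂ E) :
    nilIndex μ ≤ 2 ^ (finrank ℂ E - 1) + 1 := by
  apply Nat.sInf_le
  refine ⟨Nat.le_add_left _ _, ?_⟩
  rw [eq_bot_iff, ← lc_finrank_bot μ hn]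
  have := pw_le_lc μ hc _ (finrank ℂ E - 1) le_rfl
  rwa [Nat.sub_add_cancel hs] at this

lemma le_nilIndex {m : ℕ} (hn : IsNilp μ) (h : pw μ m ≠ ⊥) : m + 1 ≤ nilIndex μ := by
  have h1 : nilIndex μ ∈ {m | 1 ≤ m ∧ pw μ m = ⊥} := Nat.sInf_mem hn
  by_contra h2
  apply h
  rw [eq_bot_iff, ← h1.2]
  exact pw_anti' μ (by omega)

lemma pw_ne_of_index {m : ℕ} (hm : 1 ≤ m) (h : m + 1 ≤ nilIndex μ) : pw μ m ≠ ⊥ := by
  intro h1
  have : nilIndex μ ≤ m := Nat.sInf_le ⟨hm, h1⟩
  omega

lemma isEvolution_of_basis {ι : Type w} [Fintype ι] {b : Basis ι ℂ E} (hb : NaturalBasis μ b) :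
    IsEvolution μ := by
  classical
  have hcard : Fintype.card ι = finrank ℂ E := (finrank_eq_card_basis b).symm
  refine ⟨b.reindex (Fintype.equivFinOfCardEq hcard), ?_⟩
  intro i j hij
  rw [Basis.reindex_apply, Basis.reindex_apply]
  exact hb _ _ fun h => hij (Equiv.injective _ h)

end idx

section evol

variable {ι : Type w} [Fintype ι]

/-- the evolution algebra with structure matrix `A` -/
noncomputable def evol (A : ι → ι → ℂ) : (ι → ℂ) →ₗ[ℂ] (ι → ℂ) →ₗ[ℂ] (ι → ℂ) :=
  LinearMap.mk₂ ℂ (fun x y => fun k => ∑ i, x i * y i * A i k)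
    (fun x y z => by
      funext k
      simp only [Pi.add_apply, add_mul, Finset.sum_add_distrib])
    (fun c x y => by
      funext k
      simp only [Pi.smul_apply, smul_eq_mul, Finset.mul_sum]
      exact Finset.sum_congr rfl fun i _ => by ring)
    (fun x y z => by
      funext k
      simp only [Pi.add_apply, mul_add, add_mul, Finset.sum_add_distrib])
    (fun c x y => by
      funext k
      simp only [Pi.smul_apply, smul_eq_mul, Finset.mul_sum]
      exact Finset.sum_congr rfl fun i _ => by ring)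

lemma evol_apply (A : ι → ι → ℂ) (x y : ι → ℂ) (k : ι) :
    evol A x y k = ∑ i, x i * y i * A i k := rfl

lemma evol_comm (A : ι → ι → ℂ) (x y : ι → ℂ) : evol A x y = evol A y x := by
  funext k
  rw [evol_apply, evol_apply]
  exact Finset.sum_congr rfl fun i _ => by ring

variable [DecidableEq ι]

lemma evol_natural (A : ι → ι → ℂ) : NaturalBasis (evol A) (Pi.basisFun ℂ ι) := by
  intro i j hij
  funext k
  rw [evol_apply]
  refine Finset.sum_eq_zero fun l _ => ?_
  simp only [Pi.basisFun_apply]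
  by_cases h : l = i
  · subst h; rw [Pi.single_eq_of_ne hij]; ring
  · rw [Pi.single_eq_of_ne h]; ring

lemma evol_sq (A : ι → ι → ℂ) (i : ι) :
    evol A (Pi.basisFun ℂ ι i) (Pi.basisFun ℂ ι i) = A i := by
  funext k
  rw [evol_apply, Finset.sum_eq_single i]
  · simp
  · intro j _ hj
    simp only [Pi.basisFun_apply]
    rw [Pi.single_eq_of_ne hj]; ring
  · intro h; exact absurd (Finset.mem_univ i) h

lemma exists_max (s : ℕ) (hs : 1 ≤ s) : ∃ ν : (Fin s → ℂ) →ₗ[ℂ] (Fin s → ℂ) →ₗ[ℂ] (Fin s → ℂ),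
    IsEvolution ν ∧ IsNilp ν ∧ pw ν (2 ^ (s - 1)) ≠ ⊥ := by
  let A : Fin s → Fin s → ℂ := fun i k => if (k : ℕ) = i + 1 then 1 else 0
  have hnil : ∃ k, lc (evol A) k = ⊥ := by
    have h : ∀ k, ∀ x ∈ lc (evol A) k, ∀ j : Fin s, (j : ℕ) < k → x j = 0 := by
      intro k
      induction k with
      | zero => intro x _ j hj; omega
      | succ k ih =>
        have hle : lc (evol A) (k + 1) ≤ (⨅ j : {j : Fin s // (j : ℕ) < k + 1},
            LinearMap.ker (LinearMap.proj (R := ℂ) (φ := fun _ : Fin s => ℂ) j.1)) := by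
          rw [lc_succ, Submodule.map₂_le]
          intro x hx y _
          rw [Submodule.mem_iInf]
          rintro ⟨j, hj⟩
          rw [LinearMap.mem_ker, LinearMap.proj_apply, evol_apply]
          refine Finset.sum_eq_zero fun i _ => ?_
          by_cases hij : (j : ℕ) = i + 1
          · rw [ih x hx i (by omega)]; ring
          · simp only [A]; rw [if_neg hij]; ring
        intro x hx j hj
        have h2 := (Submodule.mem_iInf _).mp (hle hx) ⟨j, hj⟩
        simpa using h2
    refine ⟨s, ?_⟩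
    rw [eq_bot_iff]
    intro x hx
    rw [Submodule.mem_bot]
    funext j
    exact h s x hx j j.2
  refine ⟨evol A, isEvolution_of_basis _ (evol_natural A),
    (isNilp_iff _ (evol_comm A)).mpr hnil, ?_⟩
  have := pw_ne_bot_of_flag (evol_natural A) ⟨s - 1, by omega⟩ (by
    rw [evol_sq]
    funext k
    have : (k : ℕ) < s := k.2
    simp only [A]
    rw [if_neg (by omega)]
    rfl) (by
    rw [linearIndepOn_iff']
    intro t g ht hg i hi
    have hi2 : i ≠ ⟨s - 1, by omega⟩ := ht hi
    have hi3 : (i : ℕ) + 1 < s := by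
      have : (i : ℕ) ≠ s - 1 := fun h => hi2 (Fin.ext h)
      have : (i : ℕ) < s := i.2
      omega
    have h2 := congrFun hg ⟨(i : ℕ) + 1, hi3⟩
    rw [Finset.sum_apply, Finset.sum_eq_single i] at h2
    · rw [evol_sq] at h2
      simpa [A] using h2
    · intro j _ hj
      rw [evol_sq]
      simp only [A, Pi.smul_apply, smul_eq_mul]
      rw [if_neg, mul_zero]
      intro h
      exact hj (Fin.ext (by simp at h; omega))
    · intro h; exact absurd hi h) hnil
  simpa using this

end evol

end Pool.Agent.H6EV
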