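import Mathlib

/-!
Existence of a nonzero solution of the system `∑ i, x i ^ 2 * A i k = x k` over `ℂ` for an
invertible matrix `A` (a nonzero idempotent of a perfect evolution algebra).
-/

set_option autoImplicit false

namespace Pool.Agent.H6EV

open Finset

variable {ι : Type*} [Fintype ι] [DecidableEq ι]

/-- normal form of `x_j * x_S` modulo the relations `x_j ^ 2 = ∑ k, B j k * x_k` -/
noncomputable def g (B : ι → ι → ℂ) (j : ι) (S : Finset ι) : Finset ι →₀ ℂ :=
  if h : j ∈ S then ∑ k, B j k • g B k (S.erase j) else Finsupp.single (insert j S) 1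
termination_by S.card
decreasing_by exact Finset.card_erase_lt_of_mem h

/-- multiplication by `x_j` on the span of the squarefree monomials -/
noncomputable def X (B : ι → ι → ℂ) (j : ι) : (Finset ι →₀ ℂ) →ₗ[ℂ] (Finset ι →₀ ℂ) :=
  Finsupp.linearCombination ℂ (g B j)

lemma X_single (B : ι → ι → ℂ) (j : ι) (S : Finset ι) :
    X B j (Finsupp.single S 1) = g B j S := by
  simp [X, Finsupp.linearCombination_single]

lemma X_notMem (B : ι → ι → ℂ) {j : ι} {S : Finset ι} (h : j ∉ S) :
    X B j (Finsupp.single S 1) = Finsupp.single (insert j S) 1 := by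
  rw [X_single, g, dif_neg h]

lemma X_mem (B : ι → ι → ℂ) {j : ι} {S : Finset ι} (h : j ∈ S) :
    X B j (Finsupp.single S 1) = ∑ k, B j k • X B k (Finsupp.single (S.erase j) 1) := by
  rw [X_single, g, dif_pos h]
  simp only [X_single]

lemma comm_single (B : ι → ι → ℂ) : ∀ (n : ℕ) (S : Finset ι), S.card = n → ∀ i j,
    X B i (X B j (Finsupp.single S 1)) = X B j (X B i (Finsupp.single S 1)) := by
  intro n
  induction n using Nat.strong_induction_on with
  | _ n ih =>
  -- one element in S, the other not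
  have key : ∀ (S : Finset ι), S.card = n → ∀ i j, i ≠ j → j ∈ S → i ∉ S →
      X B i (X B j (Finsupp.single S 1)) = X B j (X B i (Finsupp.single S 1)) := by
    intro S hS i j hij hj hi
    have hlt : (S.erase j).card < n := by
      rw [← hS]; exact Finset.card_erase_lt_of_mem hj
    have hi' : i ∉ S.erase j := fun h => hi (Finset.mem_of_mem_erase h)
    have hj' : j ∈ insert i S := Finset.mem_insert_of_mem hj
    rw [X_mem B hj, X_notMem B hi, X_mem B hj', map_sum]
    refine Finset.sum_congr rfl fun k _ => ?_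
    rw [map_smul, ih _ hlt _ rfl i k, X_notMem B hi', Finset.erase_insert_of_ne hij]
  intro S hS i j
  rcases eq_or_ne i j with rfl | hij
  · rfl
  by_cases hi : i ∈ S <;> by_cases hj : j ∈ S
  · have hj' : j ∈ S.erase i := Finset.mem_erase.mpr ⟨hij.symm, hj⟩
    have hi' : i ∈ S.erase j := Finset.mem_erase.mpr ⟨hij, hi⟩
    have hlti : (S.erase i).card < n := by
      rw [← hS]; exact Finset.card_erase_lt_of_mem hi
    have hltj : (S.erase j).card < n := by
      rw [← hS]; exact Finset.card_erase_lt_of_mem hj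
    have hltij : ((S.erase i).erase j).card < n :=
      (Finset.card_erase_lt_of_mem hj').trans hlti
    have hE : (S.erase j).erase i = (S.erase i).erase j := Finset.erase_right_comm
    have h1 : X B i (X B j (Finsupp.single S 1)) =
        ∑ k, ∑ l, (B j k * B i l) •
          X B k (X B l (Finsupp.single ((S.erase i).erase j) 1)) := by
      rw [X_mem B hj, map_sum]
      refine Finset.sum_congr rfl fun k _ => ?_
      rw [map_smul, ih _ hltj _ rfl i k, X_mem B hi', map_sum, hE, Finset.smul_sum]
      refine Finset.sum_congr rfl fun l _ => ?_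
      rw [map_smul, smul_smul]
    have h2 : X B j (X B i (Finsupp.single S 1)) =
        ∑ l, ∑ k, (B i l * B j k) •
          X B l (X B k (Finsupp.single ((S.erase i).erase j) 1)) := by
      rw [X_mem B hi, map_sum]
      refine Finset.sum_congr rfl fun l _ => ?_
      rw [map_smul, ih _ hlti _ rfl j l, X_mem B hj', map_sum, Finset.smul_sum]
      refine Finset.sum_congr rfl fun k _ => ?_
      rw [map_smul, smul_smul]
    rw [h1, h2, Finset.sum_comm]
    refine Finset.sum_congr rfl fun l _ => Finset.sum_congr rfl fun k _ => ?_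
    rw [ih _ hltij _ rfl k l, mul_comm]
  · exact (key S hS j i hij.symm hi hj).symm
  · exact key S hS i j hij hj hi
  · have hi' : i ∉ insert j S := by
      rw [Finset.mem_insert, not_or]; exact ⟨hij, hi⟩
    have hj' : j ∉ insert i S := by
      rw [Finset.mem_insert, not_or]; exact ⟨hij.symm, hj⟩
    rw [X_notMem B hi, X_notMem B hj, X_notMem B hi', X_notMem B hj', Finset.insert_comm]

lemma X_comm (B : ι → ι → ℂ) (i j : ι) (v : Finset ι →₀ ℂ) :
    X B i (X B j v) = X B j (X B i v) := by
  have : (X B i).comp (X B j) = (X B j).comp (X B i) := by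
    refine Finsupp.lhom_ext' fun S => LinearMap.ext_ring ?_
    exact comm_single B _ S rfl i j
  exact LinearMap.congr_fun this v

lemma X_sq (B : ι → ι → ℂ) (j : ι) (v : Finset ι →₀ ℂ) :
    X B j (X B j v) = ∑ k, B j k • X B k v := by
  have : (X B j).comp (X B j) = ∑ k, B j k • X B k := by
    refine Finsupp.lhom_ext' fun S => LinearMap.ext_ring ?_
    show X B j (X B j (Finsupp.single S 1)) = (∑ k, B j k • X B k) (Finsupp.single S 1)
    rw [LinearMap.sum_apply]
    simp only [LinearMap.smul_apply]
    by_cases h : j ∈ S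
    · have hS : Finsupp.single S (1:ℂ) = X B j (Finsupp.single (S.erase j) 1) := by
        rw [X_notMem B (Finset.notMem_erase j S), Finset.insert_erase h]
      have h2 : X B j (X B j (Finsupp.single (S.erase j) 1)) =
          ∑ k, B j k • X B k (Finsupp.single (S.erase j) 1) := by
        rw [X_notMem B (Finset.notMem_erase j S), Finset.insert_erase h, X_mem B h]
      rw [hS, h2, map_sum]
      refine Finset.sum_congr rfl fun k _ => ?_
      rw [map_smul, X_comm B j k]
    · rw [X_notMem B h, X_mem B (Finset.mem_insert_self j S), Finset.erase_insert h]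
  have h3 := LinearMap.congr_fun this v
  rw [LinearMap.sum_apply] at h3
  exact h3

/-- a commuting family of endomorphisms has a common eigenvector -/
lemma common_eigen {W : Type*} [AddCommGroup W] [Module ℂ W] [FiniteDimensional ℂ W]
    [Nontrivial W] {κ : Type*} (T : κ → Module.End ℂ W)
    (hT : ∀ i j w, T i (T j w) = T j (T i w)) :
    ∃ w : W, w ≠ 0 ∧ ∃ l : κ → ℂ, ∀ i, T i w = l i • w := by
  classical
  let P : ℕ → Prop := fun n => ∃ U : Submodule ℂ W, U ≠ ⊥ ∧ (∀ i, ∀ u ∈ U, T i u ∈ U) ∧
    Module.finrank ℂ U = n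
  have hP : ∃ n, P n := ⟨_, ⊤, top_ne_bot, fun _ _ _ => trivial, rfl⟩
  obtain ⟨U, hU, hinv, hfin⟩ := Nat.find_spec hP
  have hmin : ∀ U' : Submodule ℂ W, U' ≤ U → U' ≠ ⊥ → (∀ i, ∀ u ∈ U', T i u ∈ U') → U' = U := by
    intro U' hle hne hinv'
    refine Submodule.eq_of_le_of_finrank_le hle ?_
    rw [hfin]
    exact Nat.find_min' hP ⟨U', hne, hinv', rfl⟩
  have hsc : ∀ i, ∃ l : ℂ, ∀ u ∈ U, T i u = l • u := by
    intro i
    haveI : Nontrivial U := Submodule.nontrivial_iff_ne_bot.mpr hU
    obtain ⟨l, hl⟩ := Module.End.exists_eigenvalue ((T i).restrict (hinv i))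
    obtain ⟨v, hv⟩ := hl.exists_hasEigenvector
    have hv1 := hv.apply_eq_smul
    have hv2 : T i (v : W) = l • (v : W) := by
      have := congrArg Subtype.val hv1
      simpa using this
    have hv0 : (v : W) ≠ 0 := fun h => hv.2 (Subtype.ext h)
    have := hmin (U ⊓ LinearMap.ker (T i - l • LinearMap.id)) inf_le_left ?_ ?_
    · refine ⟨l, fun u hu => ?_⟩
      rw [← this] at hu
      have h2 : u ∈ LinearMap.ker (T i - l • LinearMap.id) := hu.2
      rw [LinearMap.mem_ker, LinearMap.sub_apply, sub_eq_zero] at h2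
      simpa using h2
    · intro hb
      have : (v : W) ∈ (⊥ : Submodule ℂ W) := by
        rw [← hb]
        refine ⟨v.2, ?_⟩
        show (v : W) ∈ LinearMap.ker (T i - l • LinearMap.id)
        rw [LinearMap.mem_ker, LinearMap.sub_apply, sub_eq_zero]
        simpa using hv2
      exact hv0 ((Submodule.mem_bot ℂ).mp this)
    · rintro j u ⟨hu1, hu2⟩
      refine ⟨hinv j u hu1, ?_⟩
      have hu3 : u ∈ LinearMap.ker (T i - l • LinearMap.id) := hu2
      have h2 : T i u = l • u := by
        rw [LinearMap.mem_ker, LinearMap.sub_apply, sub_eq_zero] at hu3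
        simpa using hu3
      show T j u ∈ LinearMap.ker (T i - l • LinearMap.id)
      rw [LinearMap.mem_ker, LinearMap.sub_apply, sub_eq_zero, hT i j, h2, map_smul]
      simp
  choose l hl using hsc
  obtain ⟨w, hw, hw0⟩ := Submodule.exists_mem_ne_zero_of_ne_bot hU
  exact ⟨w, hw0, l, fun i => hl i w hw⟩

lemma nontrivial_dual (W : Type*) [AddCommGroup W] [Module ℂ W] [Nontrivial W] :
    Nontrivial (Module.Dual ℂ W) := by
  obtain ⟨u, hu⟩ := exists_ne (0 : W)
  by_contra h
  rw [not_nontrivial_iff_subsingleton] at h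
  apply hu
  rw [← Module.forall_dual_apply_eq_zero_iff ℂ u]
  intro φ
  rw [Subsingleton.elim φ 0]
  rfl

theorem exists_sol [Nonempty ι] (A : ι → ι → ℂ)
    (hA : ∀ y : ι → ℂ, (∀ k, ∑ i, y i * A i k = 0) → y = 0) :
    ∃ x : ι → ℂ, x ≠ 0 ∧ ∀ k, ∑ i, x i ^ 2 * A i k = x k := by
  classical
  -- the inverse matrix
  have hinj : Function.Injective (Matrix.of A).vecMul := by
    intro y z hyz
    have h1 : (y - z) = 0 := by
      apply hA
      intro k
      have h2 := congrFun hyz k
      simp only [Matrix.vecMul, dotProduct, Matrix.of_apply] at h2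
      simp only [Pi.sub_apply, sub_mul, Finset.sum_sub_distrib, h2, sub_self]
    exact sub_eq_zero.mp h1
  have hunit : IsUnit (Matrix.of A) := Matrix.vecMul_injective_iff_isUnit.mp hinj
  obtain ⟨C, hC⟩ : ∃ C : Matrix ι ι ℂ, C * Matrix.of A = 1 := by
    obtain ⟨u, hu⟩ := hunit
    exact ⟨↑u⁻¹, by rw [← hu]; exact u.inv_mul⟩
  have hCA : ∀ l k, ∑ i, C l i * A i k = if l = k then 1 else 0 := by
    intro l k
    have := congrFun (congrFun hC l) k
    simpa [Matrix.mul_apply, Matrix.one_apply] using this
  let B : ι → ι → ℂ := fun i k => C k i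
  have hR : ∀ (k : ι) (v : Finset ι →₀ ℂ), X B k v = ∑ i, A i k • X B i (X B i v) := by
    intro k v
    simp only [X_sq, Finset.smul_sum, smul_smul]
    rw [Finset.sum_comm]
    have : ∀ l, ∑ i, (A i k * B i l) • X B l v = if l = k then X B l v else 0 := by
      intro l
      rw [← Finset.sum_smul]
      have h1 : ∑ i, A i k * B i l = if l = k then 1 else 0 := by
        rw [← hCA l k]
        exact Finset.sum_congr rfl fun i _ => mul_comm _ _
      rw [h1]
      split_ifs <;> simp
    rw [Finset.sum_congr rfl fun l _ => this l]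
    simp
  obtain ⟨U, hUdef⟩ : ∃ U : Submodule ℂ (Finset ι →₀ ℂ), U = ⨆ k, LinearMap.range (X B k) :=
    ⟨_, rfl⟩
  have hXU : ∀ k v, X B k v ∈ U := fun k v => by
    rw [hUdef]
    exact (le_iSup (fun k => LinearMap.range (X B k)) k) ⟨v, rfl⟩
  have hUne : U ≠ ⊥ := by
    intro hU
    obtain ⟨k⟩ := ‹Nonempty ι›
    have h1 := hXU k (Finsupp.single ∅ 1)
    rw [hU, Submodule.mem_bot, X_notMem B (Finset.notMem_empty k)] at h1
    simp at h1
  haveI : Nontrivial U := Submodule.nontrivial_iff_ne_bot.mpr hUne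
  let T : ι → Module.End ℂ (Module.Dual ℂ U) := fun k =>
    ((X B k).restrict (fun u (_ : u ∈ U) => hXU k u)).dualMap
  haveI : Nontrivial (Module.Dual ℂ U) := nontrivial_dual U
  obtain ⟨f, hf, l, hl⟩ := common_eigen T (by
    intro i j f
    apply LinearMap.ext
    intro u
    simp only [T, LinearMap.dualMap_apply]
    congr 1
    apply Subtype.ext
    simp only [LinearMap.coe_restrict_apply]
    exact X_comm B j i u)
  have hfl : ∀ k (u : U), f ⟨X B k u, hXU k u⟩ = l k * f u := by
    intro k u
    have := LinearMap.congr_fun (hl k) u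
    simp only [T, LinearMap.dualMap_apply, LinearMap.smul_apply, smul_eq_mul] at this
    rw [← this]
    rfl
  refine ⟨l, ?_, ?_⟩
  · rintro rfl
    apply hf
    have hle : U ≤ (LinearMap.ker f).map U.subtype := by
      conv_lhs => rw [hUdef]
      refine iSup_le fun k => ?_
      rintro _ ⟨w, rfl⟩
      refine ⟨⟨X B k w, hXU k w⟩, ?_, rfl⟩
      show (⟨X B k w, hXU k w⟩ : U) ∈ LinearMap.ker f
      have h1 : (⟨X B k w, hXU k w⟩ : U) =
          ∑ i, A i k • (⟨X B i (X B i w), hXU i _⟩ : U) := by
        apply Subtype.ext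
        rw [Submodule.coe_sum]
        exact hR k w
      rw [LinearMap.mem_ker, h1, map_sum]
      refine Finset.sum_eq_zero fun i _ => ?_
      rw [map_smul, hfl i ⟨X B i w, hXU i w⟩]
      simp
    ext u
    obtain ⟨u', hu', hu''⟩ := hle u.2
    have h1 : u' = u := Subtype.ext hu''
    subst h1
    exact hu'
  · intro k
    obtain ⟨u, hu⟩ : ∃ u, f u ≠ 0 := by
      by_contra h
      push Not at h
      exact hf (LinearMap.ext h)
    have h1 : (⟨X B k u, hXU k u⟩ : U) =
        ∑ i, A i k • (⟨X B i (X B i u), hXU i _⟩ : U) := by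
      apply Subtype.ext
      rw [Submodule.coe_sum]
      exact hR k u
    have h2 := congrArg f h1
    rw [hfl, map_sum] at h2
    have h3 : ∀ i, f (A i k • (⟨X B i (X B i u), hXU i _⟩ : U)) = (l i ^ 2 * A i k) * f u := by
      intro i
      rw [map_smul, hfl i ⟨X B i u, hXU i u⟩, hfl i u]
      simp only [smul_eq_mul]
      ring
    rw [Finset.sum_congr rfl fun i _ => h3 i, ← Finset.sum_mul] at h2
    exact (mul_right_cancel₀ hu h2).symm

end Pool.Agent.H6EV
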