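import Pool.Agent.H6EV.Classify

/-!
The algebras of the classification are pairwise non-isomorphic.
-/

set_option autoImplicit false

namespace Pool.Agent.H6EV

open Module

universe u v w

section gen

variable {E : Type u} [AddCommGroup E] [Module ℂ E] {F : Type v} [AddCommGroup F] [Module ℂ F]
  {μ : E →ₗ[ℂ] E →ₗ[ℂ] E} {ν : F →ₗ[ℂ] F →ₗ[ℂ] F}

lemma idem_zero (hn : ∃ k, lc μ k = ⊥) (u : E) (hu : μ u u = u) : u = 0 := by
  obtain ⟨k, hk⟩ := hn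
  have h : ∀ m, u ∈ lc μ m := by
    intro m
    induction m with
    | zero => exact trivial
    | succ m ih =>
      rw [lc_succ]
      conv => enter [2]; rw [← hu]
      exact Submodule.apply_mem_map₂ _ ih trivial
  have := h k
  rw [hk] at this
  exact (Submodule.mem_bot ℂ).mp this

lemma Iso.symm (h : Iso μ ν) : Iso ν μ := by
  obtain ⟨φ, hφ⟩ := h
  refine ⟨φ.symm, fun x y => ?_⟩
  apply φ.injective
  rw [hφ]
  simp

lemma iso_key (hν : ∃ k, lc ν k = ⊥) (φ : (ℂ × E) ≃ₗ[ℂ] (ℂ × F))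
    (hφ : ∀ x y, φ (dsum ES1 μ x y) = dsum ES1 ν (φ x) (φ y)) (y : E) : (φ (0, y)).1 = 0 := by
  have h1 := hφ (1, 0) (1, 0)
  have h2 : dsum ES1 μ (1, 0) (1, 0) = (1, 0) := by simp
  rw [h2, dsum_apply] at h1
  have h3 : ν (φ (1, 0)).2 (φ (1, 0)).2 = (φ (1, 0)).2 := (congrArg Prod.snd h1).symm
  have h4 := idem_zero hν _ h3
  have h6 : (φ (1, 0)).1 ≠ 0 := by
    intro h
    have h7 : φ (1, 0) = 0 := Prod.ext h h4
    have h8 := (LinearEquiv.map_eq_zero_iff φ).mp h7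
    have h9 : (1:ℂ) = 0 := congrArg Prod.fst h8
    exact one_ne_zero h9
  have h10 := hφ (1, 0) (0, y)
  have h11 : dsum ES1 μ (1, 0) (0, y) = 0 := by simp
  rw [h11, map_zero, dsum_apply] at h10
  have h12 : (0:ℂ) = (φ (1, 0)).1 * (φ (0, y)).1 := congrArg Prod.fst h10
  exact (mul_eq_zero.mp h12.symm).resolve_left h6

/-- An isomorphism `ES1 ⊕ μ ≅ ES1 ⊕ ν` with `μ`, `ν` nilpotent restricts to `μ ≅ ν`. -/
lemma iso_cancel (hμ : ∃ k, lc μ k = ⊥) (hν : ∃ k, lc ν k = ⊥)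
    (h : Iso (dsum ES1 μ) (dsum ES1 ν)) : Iso μ ν := by
  obtain ⟨φ, hφ⟩ := h
  have hφ' : ∀ x y, φ.symm (dsum ES1 ν x y) = dsum ES1 μ (φ.symm x) (φ.symm y) := by
    intro x y
    apply φ.injective
    rw [hφ]
    simp
  have h1 := iso_key hν φ hφ
  have h2 := iso_key hμ φ.symm hφ'
  let f : E →ₗ[ℂ] F := (LinearMap.snd ℂ ℂ F).comp (φ.toLinearMap.comp (LinearMap.inr ℂ ℂ E))
  let g : F →ₗ[ℂ] E := (LinearMap.snd ℂ ℂ E).comp (φ.symm.toLinearMap.comp (LinearMap.inr ℂ ℂ F))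
  have hf : ∀ x, φ (0, x) = (0, f x) := fun x => Prod.ext (h1 x) rfl
  have hg : ∀ x, φ.symm (0, x) = (0, g x) := fun x => Prod.ext (h2 x) rfl
  refine ⟨LinearEquiv.ofLinear f g ?_ ?_, ?_⟩
  · ext x
    have : φ (φ.symm (0, x)) = (0, f (g x)) := by rw [hg, hf]
    rw [LinearEquiv.apply_symm_apply] at this
    exact (congrArg Prod.snd this).symm
  · ext x
    have : φ.symm (φ (0, x)) = (0, g (f x)) := by rw [hf, hg]
    rw [LinearEquiv.symm_apply_apply] at this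
    exact (congrArg Prod.snd this).symm
  · intro x y
    show f (μ x y) = ν (f x) (f y)
    have h3 := hφ (0, x) (0, y)
    have h4 : dsum ES1 μ (0, x) (0, y) = (0, μ x y) := by simp
    rw [h4, hf, hf, hf, dsum_apply] at h3
    exact congrArg Prod.snd h3

lemma lc_prod (m : ℕ) : lc (dsum μ ν) m ≤ (lc μ m).prod (lc ν m) := by
  induction m with
  | zero => intro x _; exact ⟨trivial, trivial⟩
  | succ m ih =>
    rw [lc_succ, Submodule.map₂_le]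
    intro x hx y _
    have h := ih hx
    rw [dsum_apply]
    exact ⟨Submodule.apply_mem_map₂ _ h.1 trivial, Submodule.apply_mem_map₂ _ h.2 trivial⟩

lemma lc_zero_one : lc (0 : E →ₗ[ℂ] E →ₗ[ℂ] E) 1 = ⊥ := by
  rw [eq_bot_iff, show (1:ℕ) = 0 + 1 from rfl, lc_succ, Submodule.map₂_le]
  intro x _ y _
  simp

lemma nil_dsum (hμ : ∃ k, lc μ k = ⊥) (hν : ∃ k, lc ν k = ⊥) : ∃ k, lc (dsum μ ν) k = ⊥ := by
  obtain ⟨k, hk⟩ := hμ
  obtain ⟨l, hl⟩ := hν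
  refine ⟨max k l, ?_⟩
  rw [eq_bot_iff]
  refine (lc_prod _).trans ?_
  rintro ⟨x, y⟩ ⟨hx, hy⟩
  have h1 : x ∈ lc μ k := lc_anti' μ (le_max_left _ _) hx
  have h2 : y ∈ lc ν l := lc_anti' ν (le_max_right _ _) hy
  rw [hk, Submodule.mem_bot] at h1
  rw [hl, Submodule.mem_bot] at h2
  rw [h1, h2]
  exact Submodule.zero_mem _

lemma lc_one_le [FiniteDimensional ℂ F] (h : Iso μ ν) :
    finrank ℂ (lc μ 1) ≤ finrank ℂ (lc ν 1) := by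
  obtain ⟨φ, hφ⟩ := h
  have h1 : (lc μ 1).map (φ : E →ₗ[ℂ] F) ≤ lc ν 1 := by
    rw [Submodule.map_le_iff_le_comap, show (1:ℕ) = 0 + 1 from rfl, lc_succ, Submodule.map₂_le]
    intro x _ y _
    rw [Submodule.mem_comap]
    show φ (μ x y) ∈ _
    rw [hφ]
    exact Submodule.apply_mem_map₂ _ trivial trivial
  have h2 := (Submodule.equivMapOfInjective (φ : E →ₗ[ℂ] F) φ.injective (lc μ 1)).finrank_eq
  rw [h2]
  exact Submodule.finrank_mono h1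

end gen

section zn

variable {s : ℕ} {ν : (Fin s → ℂ) →ₗ[ℂ] (Fin s → ℂ) →ₗ[ℂ] (Fin s → ℂ)}

lemma ZN.facts (hs : 2 ≤ s) (h : ZN s ν) :
    (∃ k, lc ν k = ⊥) ∧ finrank ℂ (lc ν 1) = s - 1 ∧
      ∀ x, (∀ y, ν x y = 0) → x ∈ lc ν 1 := by
  obtain ⟨⟨b, hb⟩, hn, hmax⟩ := h
  have hc := fun x y => mul_comm' hb x y
  have hn' := (isNilp_iff ν hc).mp hn
  have hfs : finrank ℂ (Fin s → ℂ) = s := by simp
  obtain ⟨ν', hev, hnil, hne⟩ := exists_max s (by omega)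
  have h1 : 2 ^ (s - 1) + 1 ≤ nilIndex ν := (le_nilIndex ν' hnil hne).trans (hmax ν' hev hnil)
  have h2 : pw ν (2 ^ (s - 1)) ≠ ⊥ := pw_ne_of_index ν Nat.one_le_two_pow h1
  have h3 : lc ν 1 ≠ lc ν 0 := by
    apply lc_ne_of_ne_bot ν hn'
    intro h
    rw [lc] at h
    have := congrArg (fun W : Submodule ℂ (Fin s → ℂ) => finrank ℂ W) h
    simp only [finrank_top, finrank_bot, hfs] at this
    omega
  have h4 : finrank ℂ (lc ν 1) < s := by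
    have := Submodule.finrank_lt_finrank_of_lt (lt_of_le_of_ne (lc_anti ν 0) h3)
    rw [show finrank ℂ (lc ν 0) = s by rw [lc, finrank_top, hfs]] at this
    exact this
  have h5 : finrank ℂ (lc ν 1) = s - 1 := by
    by_contra hcon
    apply h2
    have h6 := lc_finrank ν (s := s) (d := 1) (a := 1) hn' (by omega) (s - 1) (by omega)
    have h7 : lc ν (s - 1) = ⊥ := by
      rcases h6 with h6 | h6
      · exact h6
      · have : finrank ℂ (lc ν (s - 1)) = 0 := by omega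
        exact Submodule.finrank_eq_zero.mp this
    rw [eq_bot_iff, ← h7]
    have h8 : 2 ^ (s - 2) + 1 ≤ 2 ^ (s - 1) := by
      have : 2 ^ (s - 1) = 2 * 2 ^ (s - 2) := by
        rw [← pow_succ']; congr 1; omega
      have h9 : 1 ≤ 2 ^ (s - 2) := Nat.one_le_two_pow
      omega
    have h10 := pw_le_lc ν hc _ _ h8
    rwa [show s - 2 + 1 = s - 1 by omega] at h10
  refine ⟨hn', h5, ?_⟩
  intro x hx
  by_contra hxn
  -- the whole algebra is ℂ x + C_1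
  have h6 : Submodule.span ℂ {x} ⊔ lc ν 1 = ⊤ := by
    apply Submodule.eq_top_of_finrank_eq
    apply le_antisymm (Submodule.finrank_le _)
    have h7 : lc ν 1 < Submodule.span ℂ {x} ⊔ lc ν 1 := by
      refine lt_of_le_of_ne le_sup_right fun h => hxn ?_
      rw [h]
      exact Submodule.mem_sup_left (Submodule.mem_span_singleton_self x)
    have h8 := Submodule.finrank_lt_finrank_of_lt h7
    rw [hfs]
    omega
  have h7 : lc ν 1 ≤ lc ν 2 := by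
    conv_lhs => rw [show (1:ℕ) = 0 + 1 from rfl, lc_succ]
    rw [Submodule.map₂_le]
    intro z _ w _
    have hz : z ∈ Submodule.span ℂ {x} ⊔ lc ν 1 := by rw [h6]; trivial
    obtain ⟨z1, hz1, z2, hz2, rfl⟩ := Submodule.mem_sup.mp hz
    obtain ⟨a, rfl⟩ := Submodule.mem_span_singleton.mp hz1
    rw [LinearMap.map_add₂, LinearMap.map_smul₂, hx, smul_zero, zero_add]
    exact Submodule.apply_mem_map₂ _ hz2 trivial
  have h8 : lc ν 1 ≠ ⊥ := by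
    intro h
    rw [h, finrank_bot] at h5
    omega
  exact lc_ne_of_ne_bot ν hn' h8 (le_antisymm (lc_anti ν 1) h7)

lemma dsum_lc_one {r : ℕ} (x : Fin s → ℂ) (hx : x ∈ lc ν 1) :
    (x, (0 : Fin r → ℂ)) ∈
      lc (dsum ν (0 : (Fin r → ℂ) →ₗ[ℂ] (Fin r → ℂ) →ₗ[ℂ] (Fin r → ℂ))) 1 := by
  have h1 : lc ν 1 ≤ (lc (dsum ν (0 : (Fin r → ℂ) →ₗ[ℂ] (Fin r → ℂ) →ₗ[ℂ] (Fin r → ℂ))) 1).comap
      (LinearMap.inl ℂ (Fin s → ℂ) (Fin r → ℂ)) := by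
    conv_lhs => rw [show (1:ℕ) = 0 + 1 from rfl, lc_succ]
    rw [Submodule.map₂_le]
    intro x _ y _
    rw [Submodule.mem_comap]
    have : LinearMap.inl ℂ (Fin s → ℂ) (Fin r → ℂ) (ν x y) =
        dsum ν (0 : (Fin r → ℂ) →ₗ[ℂ] (Fin r → ℂ) →ₗ[ℂ] (Fin r → ℂ)) (x, 0) (y, 0) := by
      simp
    rw [this]
    exact Submodule.apply_mem_map₂ _ trivial trivial
  exact h1 hx

lemma dsum_lc_one' {r : ℕ} :
    lc (dsum ν (0 : (Fin r → ℂ) →ₗ[ℂ] (Fin r → ℂ) →ₗ[ℂ] (Fin r → ℂ))) 1 =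
      (lc ν 1).map (LinearMap.inl ℂ (Fin s → ℂ) (Fin r → ℂ)) := by
  apply le_antisymm
  · intro z hz
    have h1 := lc_prod 1 hz
    have h2 : z.2 ∈ lc (0 : (Fin r → ℂ) →ₗ[ℂ] (Fin r → ℂ) →ₗ[ℂ] (Fin r → ℂ)) 1 := h1.2
    rw [lc_zero_one, Submodule.mem_bot] at h2
    exact ⟨z.1, h1.1, Prod.ext rfl h2.symm⟩
  · rintro _ ⟨x, hx, rfl⟩
    exact dsum_lc_one x hx

lemma finrank_dsum_lc {r : ℕ} :
    finrank ℂ (lc (dsum ν (0 : (Fin r → ℂ) →ₗ[ℂ] (Fin r → ℂ) →ₗ[ℂ] (Fin r → ℂ))) 1) =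
      finrank ℂ (lc ν 1) := by
  rw [dsum_lc_one']
  exact (Submodule.equivMapOfInjective _ LinearMap.inl_injective (lc ν 1)).finrank_eq.symm

end zn

theorem not_iso_zero {m r s : ℕ} (hs : 2 ≤ s)
    {ν : (Fin s → ℂ) →ₗ[ℂ] (Fin s → ℂ) →ₗ[ℂ] (Fin s → ℂ)} (h : ZN s ν) :
    ¬ Iso (dsum ES1 (0 : (Fin m → ℂ) →ₗ[ℂ] (Fin m → ℂ) →ₗ[ℂ] (Fin m → ℂ)))
      (dsum ES1 (dsum ν (0 : (Fin r → ℂ) →ₗ[ℂ] (Fin r → ℂ) →ₗ[ℂ] (Fin r → ℂ)))) := by
  intro hiso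
  obtain ⟨hn, hf, _⟩ := h.facts hs
  have h1 := iso_cancel ⟨1, lc_zero_one⟩ (nil_dsum hn ⟨1, lc_zero_one⟩) hiso
  have h2 := lc_one_le h1.symm
  rw [finrank_dsum_lc, lc_zero_one, finrank_bot] at h2
  omega

theorem iso_data {r r' s s' : ℕ} (hs : 2 ≤ s) (hs' : 2 ≤ s')
    {ν : (Fin s → ℂ) →ₗ[ℂ] (Fin s → ℂ) →ₗ[ℂ] (Fin s → ℂ)}
    {ν' : (Fin s' → ℂ) →ₗ[ℂ] (Fin s' → ℂ) →ₗ[ℂ] (Fin s' → ℂ)} (h : ZN s ν) (h' : ZN s' ν')
    (hiso : Iso (dsum ES1 (dsum ν (0 : (Fin r → ℂ) →ₗ[ℂ] (Fin r → ℂ) →ₗ[ℂ] (Fin r → ℂ))))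
      (dsum ES1 (dsum ν' (0 : (Fin r' → ℂ) →ₗ[ℂ] (Fin r' → ℂ) →ₗ[ℂ] (Fin r' → ℂ))))) :
    s = s' ∧ Iso ν ν' := by
  obtain ⟨hn, hf, hann⟩ := h.facts hs
  obtain ⟨hn', hf', _⟩ := h'.facts hs'
  have h1 := iso_cancel (nil_dsum hn ⟨1, lc_zero_one⟩) (nil_dsum hn' ⟨1, lc_zero_one⟩) hiso
  have h2 := lc_one_le h1
  have h3 := lc_one_le h1.symm
  rw [finrank_dsum_lc, finrank_dsum_lc, hf, hf'] at h2 h3
  have hss : s = s' := by omega
  refine ⟨hss, ?_⟩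
  subst hss
  obtain ⟨φ, hφ⟩ := h1
  let ψ : (Fin s → ℂ) →ₗ[ℂ] (Fin s → ℂ) :=
    (LinearMap.fst ℂ (Fin s → ℂ) (Fin r' → ℂ)).comp
      (φ.toLinearMap.comp (LinearMap.inl ℂ (Fin s → ℂ) (Fin r → ℂ)))
  have hψ : ∀ x, ψ x = (φ (x, 0)).1 := fun x => rfl
  have hmul : ∀ x y, ψ (ν x y) = ν' (ψ x) (ψ y) := by
    intro x y
    have h4 := hφ (x, 0) (y, 0)
    have h5 : dsum ν (0 : (Fin r → ℂ) →ₗ[ℂ] (Fin r → ℂ) →ₗ[ℂ] (Fin r → ℂ)) (x, 0) (y, 0) =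
        (ν x y, 0) := by simp
    rw [h5, dsum_apply] at h4
    exact congrArg Prod.fst h4
  have hinj : Function.Injective ψ := by
    rw [← LinearMap.ker_eq_bot, LinearMap.ker_eq_bot']
    intro x hx
    rw [hψ] at hx
    have h4 : ∀ y, ν x y = 0 := by
      intro y
      have h5 := hφ (x, 0) (y, 0)
      have h6 : dsum ν (0 : (Fin r → ℂ) →ₗ[ℂ] (Fin r → ℂ) →ₗ[ℂ] (Fin r → ℂ)) (x, 0) (y, 0) =
          (ν x y, 0) := by simp
      rw [h6, dsum_apply, hx] at h5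
      have h7 : φ (ν x y, 0) = 0 := by
        rw [h5]; simp
      have h8 := (LinearEquiv.map_eq_zero_iff φ).mp h7
      exact congrArg Prod.fst h8
    have h5 := dsum_lc_one (r := r) x (hann x h4)
    have h6 : (lc (dsum ν (0 : (Fin r → ℂ) →ₗ[ℂ] (Fin r → ℂ) →ₗ[ℂ] (Fin r → ℂ))) 1).map
        (φ : _ →ₗ[ℂ] _) ≤
        lc (dsum ν' (0 : (Fin r' → ℂ) →ₗ[ℂ] (Fin r' → ℂ) →ₗ[ℂ] (Fin r' → ℂ))) 1 := by
      rw [Submodule.map_le_iff_le_comap, show (1:ℕ) = 0 + 1 from rfl, lc_succ, Submodule.map₂_le]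
      intro x _ y _
      rw [Submodule.mem_comap]
      show φ _ ∈ _
      rw [hφ]
      exact Submodule.apply_mem_map₂ _ trivial trivial
    have h7 : φ (x, 0) ∈ lc (dsum ν' (0 : (Fin r' → ℂ) →ₗ[ℂ] (Fin r' → ℂ) →ₗ[ℂ] (Fin r' → ℂ))) 1 :=
      h6 ⟨(x, 0), h5, rfl⟩
    rw [dsum_lc_one'] at h7
    obtain ⟨z, _, hz⟩ := h7
    have h8 : (φ (x, 0)).2 = 0 := by rw [← hz]; rfl
    have h9 : φ (x, 0) = 0 := Prod.ext hx h8
    have h10 := (LinearEquiv.map_eq_zero_iff φ).mp h9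
    exact congrArg Prod.fst h10
  exact ⟨LinearEquiv.ofInjectiveEndo ψ hinj, fun x y => hmul x y⟩

end Pool.Agent.H6EV
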