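import Pool.Agent.H6EV.Step

/-!
Natural bases adapted to an idempotent and a subalgebra; the idempotent splits off.
-/

set_option autoImplicit false

namespace Pool.Agent.H6EV

open Module

universe u v w

variable {E : Type u} [AddCommGroup E] [Module ℂ E] {μ : E →ₗ[ℂ] E →ₗ[ℂ] E}
  [FiniteDimensional ℂ E]

lemma adapted (hP : CondP μ) (e : E) (he : μ e e = e) (he0 : e ≠ 0) (W : Submodule ℂ E)
    (hW : IsSubalg μ W) (heW : e ∉ W) :
    ∃ (c : Basis (Fin (finrank ℂ E)) ℂ E) (j1 : Fin (finrank ℂ E)) (J : Set (Fin (finrank ℂ E))),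
      NaturalBasis μ c ∧ c j1 = e ∧ j1 ∉ J ∧ W = Submodule.span ℂ (c '' J) := by
  classical
  have hR : ∀ z, ∃ r : ℂ, μ e z = r • e := by
    intro z
    obtain ⟨r, hr⟩ := R1 hP e (by rw [he]; exact Submodule.mem_span_singleton_self e) z
    exact ⟨r, by rw [hr, he]⟩
  obtain ⟨c, J, hc, hJ⟩ := hP W hW
  -- the index j1
  obtain ⟨j1, hj1⟩ : ∃ j, c.repr e j • μ (c j) (c j) ≠ 0 := by
    by_contra h
    push Not at h
    apply he0
    rw [← he, mul_eq hc]
    refine Finset.sum_eq_zero fun j _ => ?_
    rw [mul_smul, h j, smul_zero]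
  have hg1 : c.repr e j1 ≠ 0 := fun h => hj1 (by rw [h, zero_smul])
  have hs1 : μ (c j1) (c j1) ≠ 0 := fun h => hj1 (by rw [h, smul_zero])
  obtain ⟨r1, hr1⟩ := hR (c j1)
  rw [mul_basis hc] at hr1
  have hr10 : r1 ≠ 0 := by
    rintro rfl
    rw [zero_smul] at hr1
    exact hj1 hr1
  have hsq1 : μ (c j1) (c j1) = ((c.repr e j1)⁻¹ * r1) • e := by
    rw [mul_smul, ← hr1, smul_smul, inv_mul_cancel₀ hg1, one_smul]
  -- the other basis vectors are annihilated by e
  have hother : ∀ j, j ≠ j1 → μ e (c j) = 0 := by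
    intro j hj
    by_cases hgj : c.repr e j = 0
    · rw [mul_basis hc, hgj, zero_smul]
    · obtain ⟨r, hr⟩ := hR (c j)
      have hr' := hr
      rw [mul_basis hc] at hr'
      by_cases hr0 : r = 0
      · rw [hr, hr0, zero_smul]
      · exfalso
        have hsq : μ (c j) (c j) = ((c.repr e j)⁻¹ * r) • e := by
          rw [mul_smul, ← hr', smul_smul, inv_mul_cancel₀ hgj, one_smul]
        set α1 := (c.repr e j1)⁻¹ * r1 with hα1
        set α := (c.repr e j)⁻¹ * r with hα
        have hα0 : α ≠ 0 := mul_ne_zero (inv_ne_zero hgj) hr0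
        obtain ⟨t, ht⟩ := IsAlgClosed.exists_pow_nat_eq (-(α1 * α⁻¹)) (n := 2) (by norm_num)
        have hu : μ (c j1 + t • c j) (c j1 + t • c j) = 0 := by
          have hexp : μ (c j1 + t • c j) (c j1 + t • c j) =
              μ (c j1) (c j1) + (t * t) • μ (c j) (c j) := by
            simp only [map_add, LinearMap.add_apply, map_smul, LinearMap.smul_apply,
              hc j1 j hj.symm, hc j j1 hj, smul_zero, add_zero, zero_add, smul_smul]
          rw [hexp, hsq1, hsq, smul_smul, ← add_smul]
          have : α1 + t * t * α = 0 := by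
            have h1 : t * t * α = t ^ 2 * α := by ring
            rw [h1, ht]
            field_simp
            ring
          rw [this, zero_smul]
        obtain ⟨d, hd⟩ := R1 hP (c j1 + t • c j) (by rw [hu]; exact Submodule.zero_mem _) (c j1)
        rw [hu, smul_zero, LinearMap.map_add₂, LinearMap.map_smul₂, hc j j1 hj, smul_zero,
          add_zero] at hd
        exact hs1 hd
  have hj1J : j1 ∉ J := by
    intro h
    have h1 : c j1 ∈ W := by rw [hJ]; exact Submodule.subset_span ⟨j1, h, rfl⟩
    have h2 := hW _ h1 _ h1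
    rw [hsq1] at h2
    exact heW ((Submodule.smul_mem_iff _ (mul_ne_zero (inv_ne_zero hg1) hr10)).mp h2)
  -- the new basis
  let f : Fin (finrank ℂ E) → E := fun j => if j = j1 then e else c j
  have hspan : ⊤ ≤ Submodule.span ℂ (Set.range f) := by
    rw [← c.span_eq, Submodule.span_le]
    rintro _ ⟨j, rfl⟩
    have hmem : ∀ j, j ≠ j1 → c j ∈ Submodule.span ℂ (Set.range f) := fun j hj =>
      Submodule.subset_span ⟨j, by simp [f, hj]⟩
    by_cases hj : j = j1
    · subst hj
      have h1 : e ∈ Submodule.span ℂ (Set.range f) := Submodule.subset_span ⟨j, by simp [f]⟩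
      have h2 : e = c.repr e j • c j + ∑ i ∈ Finset.univ.erase j, c.repr e i • c i := by
        rw [Finset.add_sum_erase _ (fun i => c.repr e i • c i) (Finset.mem_univ j), c.sum_repr]
      have h3' : c.repr e j • c j = e - ∑ i ∈ Finset.univ.erase j, c.repr e i • c i :=
        eq_sub_of_add_eq h2.symm
      have h3 : c.repr e j • c j ∈ Submodule.span ℂ (Set.range f) := by
        rw [h3']
        exact Submodule.sub_mem _ h1 (Submodule.sum_mem _ fun i hi =>
          Submodule.smul_mem _ _ (hmem i (Finset.mem_erase.mp hi).1))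
      exact (Submodule.smul_mem_iff _ hg1).mp h3
    · exact hmem j hj
  let c' := basisOfTopLeSpanOfCardEqFinrank f hspan (by simp)
  have hc' : ∀ j, c' j = f j := fun j => by
    simp only [c', coe_basisOfTopLeSpanOfCardEqFinrank]
  refine ⟨c', j1, J, ?_, ?_, hj1J, ?_⟩
  · intro i j hij
    rw [hc', hc']
    by_cases hi : i = j1
    · have hj : j ≠ j1 := fun h => hij (hi.trans h.symm)
      simp only [f, if_pos hi, if_neg hj]
      exact hother j hj
    · by_cases hj : j = j1
      · simp only [f, if_neg hi, if_pos hj]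
        rw [mul_comm' hc]
        exact hother i hi
      · simp only [f, if_neg hi, if_neg hj]
        exact hc i j hij
  · rw [hc']; simp [f]
  · rw [hJ]
    congr 1
    apply Set.image_congr
    intro j hj
    rw [hc']
    have : j ≠ j1 := by rintro rfl; exact hj1J hj
    simp [f, this]

/-- The annihilator of the idempotent is a subalgebra. -/
lemma split (hP : CondP μ) (e : E) (he : μ e e = e) (he0 : e ≠ 0)
    (hD : ∃ k, lc μ k = Submodule.span ℂ {e}) :
    ∀ z w, μ e z = 0 → μ e w = 0 → μ e (μ z w) = 0 := by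
  classical
  obtain ⟨c, j1, -, hc, hcj, -, -⟩ := adapted hP e he he0 ⊥ (by
    intro x hx y _
    rw [Submodule.mem_bot] at hx
    rw [hx]; simp) (by rwa [Submodule.mem_bot])
  have hez : ∀ z, μ e z = c.repr z j1 • e := by
    intro z
    rw [← hcj, mul_comm' hc, mul_basis hc, hcj, he]
  -- maximal closed set of indices
  let Q : Finset (Fin (finrank ℂ E)) → Prop := fun T =>
    j1 ∉ T ∧ ∀ j ∈ T, μ (c j) (c j) ∈ Submodule.span ℂ (c '' (T : Set (Fin (finrank ℂ E))))
  obtain ⟨T, hT, hmax⟩ : ∃ T, Q T ∧ ∀ T', Q T' → T'.card ≤ T.card := by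
    have hne : (Finset.univ.filter Q).Nonempty :=
      ⟨∅, Finset.mem_filter.mpr ⟨Finset.mem_univ _, by simp [Q]⟩⟩
    obtain ⟨T, hT, h⟩ := Finset.exists_max_image _ (fun T => T.card) hne
    exact ⟨T, (Finset.mem_filter.mp hT).2, fun T' hT' =>
      h T' (Finset.mem_filter.mpr ⟨Finset.mem_univ _, hT'⟩)⟩
  have hTall : ∀ i, i ≠ j1 → i ∈ T := by
    by_contra hcon
    push Not at hcon
    obtain ⟨i0, hi01, hi0T⟩ := hcon
    let W1 : Submodule ℂ E := Submodule.span ℂ (c '' ((insert j1 T : Finset _) : Set _))
    have hex : ∃ m, lc μ m ≤ W1 := by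
      obtain ⟨k, hk⟩ := hD
      refine ⟨k, ?_⟩
      rw [hk, Submodule.span_le, Set.singleton_subset_iff]
      exact Submodule.subset_span ⟨j1, by simp, hcj⟩
    have hm0 : Nat.find hex ≠ 0 := by
      intro h
      have h1 := Nat.find_spec hex
      rw [h, lc] at h1
      have h2 : c i0 ∈ W1 := h1 trivial
      rw [mem_span_iff] at h2
      have h3 := h2 i0 (by simp [hi01, hi0T])
      simp at h3
    obtain ⟨m, hm⟩ : ∃ m, Nat.find hex = m + 1 := ⟨Nat.find hex - 1, by omega⟩
    have hm1 : lc μ (m + 1) ≤ W1 := hm ▸ Nat.find_spec hex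
    have hm2 : ¬ lc μ m ≤ W1 := Nat.find_min hex (by omega)
    obtain ⟨z, hz, hzW⟩ := Set.not_subset.mp hm2
    obtain ⟨i, hiT, hzi⟩ : ∃ i, i ∉ insert j1 T ∧ c.repr z i ≠ 0 := by
      by_contra h
      push Not at h
      exact hzW ((mem_span_iff _ z).mpr fun i hi => h i fun h' => hi (Finset.mem_coe.mpr h'))
    have hij1 : i ≠ j1 := fun h => hiT (by simp [h])
    have hiT' : i ∉ T := fun h => hiT (Finset.mem_insert_of_mem h)
    have hsqW1 : μ (c i) (c i) ∈ W1 := by
      have h1 : μ z (c i) ∈ lc μ (m + 1) := by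
        rw [lc_succ]; exact Submodule.apply_mem_map₂ _ hz trivial
      rw [mul_basis hc] at h1
      exact (Submodule.smul_mem_iff _ hzi).mp (hm1 h1)
    set α := c.repr (μ (c i) (c i)) j1 with hα
    set w0 := μ (c i) (c i) - α • e with hw0
    have hw0T : w0 ∈ Submodule.span ℂ (c '' (T : Set (Fin (finrank ℂ E)))) := by
      rw [mem_span_iff]
      intro k hk
      rw [hw0, map_sub, Finsupp.sub_apply, map_smul, Finsupp.smul_apply, ← hcj, Basis.repr_self,
        Finsupp.single_apply]
      by_cases hkj : j1 = k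
      · subst hkj; simp [hα]
      · rw [if_neg hkj, smul_zero, sub_zero]
        exact (mem_span_iff _ _).mp hsqW1 k (by
          rw [Finset.mem_coe, Finset.mem_insert, not_or]
          exact ⟨fun h => hkj h.symm, fun h => hk (Finset.mem_coe.mpr h)⟩)
    by_cases hα0 : α = 0
    · have h1 : Q (insert i T) := by
        refine ⟨?_, ?_⟩
        · rw [Finset.mem_insert, not_or]; exact ⟨hij1.symm, hT.1⟩
        · have hmono : Submodule.span ℂ (c '' (T : Set (Fin (finrank ℂ E)))) ≤
              Submodule.span ℂ (c '' ((insert i T : Finset _) : Set (Fin (finrank ℂ E)))) :=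
            Submodule.span_mono (Set.image_mono (Finset.coe_subset.mpr (Finset.subset_insert _ _)))
          intro j hj
          rcases Finset.mem_insert.mp hj with rfl | hj
          · apply hmono
            rw [hw0, hα0, zero_smul, sub_zero] at hw0T
            exact hw0T
          · exact hmono (hT.2 j hj)
      have h2 := hmax _ h1
      rw [Finset.card_insert_of_notMem hiT'] at h2
      omega
    · obtain ⟨t, ht⟩ := IsAlgClosed.exists_pow_nat_eq (-(α⁻¹)) (n := 2) (by norm_num)
      have ht0 : t ≠ 0 := by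
        rintro rfl
        have : (0:ℂ) ^ 2 = 0 := by norm_num
        rw [this] at ht
        exact (neg_ne_zero.mpr (inv_ne_zero hα0)) ht.symm
      set WT := Submodule.span ℂ (c '' (T : Set (Fin (finrank ℂ E)))) with hWT
      set u := e + t • c i with hu
      have hei : μ e (c i) = 0 := by
        rw [hez, Basis.repr_self, Finsupp.single_apply, if_neg hij1, zero_smul]
      have hie : μ (c i) e = 0 := by rw [mul_comm' hc]; exact hei
      have huu : μ u u ∈ WT := by
        have h1 : μ u u = t ^ 2 • w0 := by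
          have hexp : μ u u = e + (t * t) • μ (c i) (c i) := by
            simp only [hu, map_add, LinearMap.add_apply, map_smul, LinearMap.smul_apply,
              hei, hie, he, smul_zero, add_zero, zero_add, smul_smul]
          have h2 : -α⁻¹ * α = -1 := by field_simp
          have h3 : t * t = -α⁻¹ := by rw [← ht]; ring
          rw [hexp, hw0, smul_sub, ht, h3, smul_smul, h2, neg_one_smul, sub_neg_eq_add, add_comm]
        rw [h1]
        exact Submodule.smul_mem _ _ hw0T
      have huw : ∀ w ∈ WT, μ u w = 0 := by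
        intro w hw
        have hwT := (mem_span_iff _ w).mp hw
        have h1 : μ e w = 0 := by
          rw [hez, hwT j1 fun h => hT.1 (Finset.mem_coe.mp h), zero_smul]
        have h2 : μ (c i) w = 0 := by
          rw [mul_comm' hc, mul_basis hc, hwT i fun h => hiT' (Finset.mem_coe.mp h), zero_smul]
        rw [hu, LinearMap.map_add₂, LinearMap.map_smul₂, h1, h2]
        simp
      have hWW : ∀ w ∈ WT, ∀ w' ∈ WT, μ w w' ∈ WT := by
        intro w hw w' hw'
        rw [mul_eq hc]
        refine Submodule.sum_mem _ fun j _ => ?_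
        by_cases hj : j ∈ T
        · exact Submodule.smul_mem _ _ (hT.2 j hj)
        · rw [(mem_span_iff _ w).mp hw j fun h => hj (Finset.mem_coe.mp h), zero_mul, zero_smul]
          exact Submodule.zero_mem _
      have hsub : IsSubalg μ (Submodule.span ℂ {u} ⊔ WT) := by
        intro x hx y hy
        obtain ⟨x1, hx1, x2, hx2, rfl⟩ := Submodule.mem_sup.mp hx
        obtain ⟨y1, hy1, y2, hy2, rfl⟩ := Submodule.mem_sup.mp hy
        obtain ⟨p, rfl⟩ := Submodule.mem_span_singleton.mp hx1
        obtain ⟨q, rfl⟩ := Submodule.mem_span_singleton.mp hy1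
        apply Submodule.mem_sup_right
        have h1 : μ x2 u = 0 := by rw [mul_comm' hc]; exact huw x2 hx2
        rw [map_add, LinearMap.map_add₂, LinearMap.map_add₂, map_smul, LinearMap.map_smul₂,
          LinearMap.map_smul₂, huw y2 hy2, map_smul, h1, smul_zero, smul_zero, add_zero, zero_add]
        exact Submodule.add_mem _ (Submodule.smul_mem _ _ (Submodule.smul_mem _ _ huu))
          (hWW x2 hx2 y2 hy2)
      obtain ⟨d, K, hd, hK⟩ := hP _ hsub
      have heu : μ e u = e := by
        rw [hu, map_add, map_smul, hei, he]; simp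
      have huK : u ∈ Submodule.span ℂ (d '' K) := by
        rw [← hK]; exact Submodule.mem_sup_left (Submodule.mem_span_singleton_self u)
      obtain ⟨k, hkK, hk⟩ : ∃ k ∈ K, μ e (d k) ≠ 0 := by
        by_contra h
        push Not at h
        have h1 : Submodule.span ℂ (d '' K) ≤ LinearMap.ker (μ e) := by
          rw [Submodule.span_le]
          rintro _ ⟨k, hk, rfl⟩
          exact h k hk
        have h2 : μ e u = 0 := h1 huK
        rw [heu] at h2
        exact he0 h2
      have hdk : d k ∈ Submodule.span ℂ {u} ⊔ WT := by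
        rw [hK]; exact Submodule.subset_span ⟨k, hkK, rfl⟩
      have h3 := hsub _ hdk _ hdk
      have h4 : μ e (d k) ∈ Submodule.span ℂ {u} ⊔ WT := by
        rw [mul_basis hd]; exact Submodule.smul_mem _ _ h3
      have h5 : e ∈ Submodule.span ℂ {u} ⊔ WT := by
        rw [hez] at h4 hk
        have h6 : c.repr (d k) j1 ≠ 0 := fun h => hk (by rw [h, zero_smul])
        exact (Submodule.smul_mem_iff _ h6).mp h4
      obtain ⟨x1, hx1, w, hw, hxw⟩ := Submodule.mem_sup.mp h5
      obtain ⟨p, rfl⟩ := Submodule.mem_span_singleton.mp hx1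
      have hrep : ∀ k, c.repr e k = if j1 = k then 1 else 0 := by
        intro k; rw [← hcj, Basis.repr_self, Finsupp.single_apply]
      have hwT := (mem_span_iff _ w).mp hw
      have h7 : c.repr (p • u + w) i = 0 := by
        rw [hxw, hrep, if_neg hij1.symm]
      rw [map_add, map_smul, Finsupp.add_apply, Finsupp.smul_apply, hu, map_add, map_smul,
        Finsupp.add_apply, Finsupp.smul_apply, hrep, if_neg hij1.symm, Basis.repr_self,
        Finsupp.single_apply, if_pos rfl, hwT i fun h => hiT' (Finset.mem_coe.mp h)] at h7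
      have hp : p = 0 := by
        simp only [smul_eq_mul, mul_one, zero_add, add_zero] at h7
        exact (mul_eq_zero.mp h7).resolve_right ht0
      rw [hp, zero_smul, zero_add] at hxw
      have h8 := hrep j1
      rw [← hxw, hwT j1 fun h => hT.1 (Finset.mem_coe.mp h), if_pos rfl] at h8
      exact zero_ne_one h8
  intro z w hz hw
  have hz0 : c.repr z j1 = 0 := by
    rw [hez] at hz
    exact (smul_eq_zero.mp hz).resolve_right he0
  have hmem : μ z w ∈ Submodule.span ℂ (c '' (T : Set (Fin (finrank ℂ E)))) := by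
    rw [mul_eq hc]
    refine Submodule.sum_mem _ fun j _ => ?_
    by_cases hj : j = j1
    · rw [hj, hz0, zero_mul, zero_smul]; exact Submodule.zero_mem _
    · exact Submodule.smul_mem _ _ (hT.2 j (hTall j hj))
  rw [hez, (mem_span_iff _ _).mp hmem j1 fun h => hT.1 (Finset.mem_coe.mp h), zero_smul]

end Pool.Agent.H6EV
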