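import Pool.Agent.H6EV.Flag
import Pool.Agent.H6EV.Idem

/-!
Consequences of condition `P`: the perfect part has dimension at most one and splits off.
-/

set_option autoImplicit false

namespace Pool.Agent.H6EV

open Module

universe u v w

variable {E : Type u} [AddCommGroup E] [Module ℂ E] {μ : E →ₗ[ℂ] E →ₗ[ℂ] E}

/-- If `u` spans a subalgebra, then `u E` is contained in the line of `u^2`. -/
lemma R1 (hP : CondP μ) (u : E) (hu : μ u u ∈ Submodule.span ℂ {u}) (x : E) :
    ∃ c : ℂ, μ u x = c • μ u u := by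
  by_cases hu0 : u = 0
  · exact ⟨0, by rw [hu0]; simp⟩
  have hsub : IsSubalg μ (Submodule.span ℂ {u}) := by
    intro x hx y hy
    obtain ⟨a, rfl⟩ := Submodule.mem_span_singleton.mp hx
    obtain ⟨c, rfl⟩ := Submodule.mem_span_singleton.mp hy
    rw [map_smul, LinearMap.map_smul₂]
    exact Submodule.smul_mem _ _ (Submodule.smul_mem _ _ hu)
  obtain ⟨b, S, hb, hS⟩ := hP _ hsub
  have huS : u ∈ Submodule.span ℂ (b '' S) := by
    rw [← hS]; exact Submodule.mem_span_singleton_self u
  obtain ⟨i, hi⟩ : ∃ i, b.repr u i ≠ 0 := by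
    by_contra h
    push Not at h
    apply hu0
    rw [← b.repr.map_eq_zero_iff]
    exact Finsupp.ext h
  have hiS : i ∈ S := by
    by_contra h
    exact hi ((mem_span_iff S u).mp huS i h)
  have hbi : b i ∈ Submodule.span ℂ {u} := by
    rw [hS]; exact Submodule.subset_span ⟨i, hiS, rfl⟩
  obtain ⟨c, hc⟩ := Submodule.mem_span_singleton.mp hbi
  have hc0 : c ≠ 0 := by
    rintro rfl
    rw [zero_smul] at hc
    exact b.ne_zero i hc.symm
  have hu1 : u = c⁻¹ • b i := by
    rw [← hc, smul_smul, inv_mul_cancel₀ hc0, one_smul]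
  refine ⟨c * b.repr x i, ?_⟩
  have h1 : μ (b i) x = b.repr x i • μ (b i) (b i) := by
    rw [mul_comm' hb, mul_basis hb]
  rw [hu1]
  simp only [map_smul, LinearMap.smul_apply, h1, smul_smul]
  congr 1
  field_simp

/-- solutions of the idempotent system on a finite set of indices -/
lemma idem_on {n : Type*} (A : n → n → ℂ) (J : Finset n) (hJ : J.Nonempty)
    (hind : ∀ y : n → ℂ, (∀ k ∈ J, ∑ i ∈ J, y i * A i k = 0) → ∀ i ∈ J, y i = 0) :
    ∃ x : n → ℂ, (∃ i ∈ J, x i ≠ 0) ∧ ∀ k ∈ J, ∑ i ∈ J, x i ^ 2 * A i k = x k := by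
  classical
  haveI : Nonempty J := hJ.to_subtype
  obtain ⟨x, hx, hs⟩ := exists_sol (ι := J) (fun i k => A i k) (by
    intro y hy
    let y' : n → ℂ := fun i => if h : i ∈ J then y ⟨i, h⟩ else 0
    have h1 := hind y' (by
      intro k hk
      rw [← Finset.sum_coe_sort J]
      have := hy ⟨k, hk⟩
      refine Eq.trans (Finset.sum_congr rfl fun i _ => ?_) this
      simp [y'])
    funext i
    have h2 := h1 i i.2
    simpa [y'] using h2)
  let x' : n → ℂ := fun i => if h : i ∈ J then x ⟨i, h⟩ else 0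
  refine ⟨x', ?_, ?_⟩
  · obtain ⟨i, hi⟩ := Function.ne_iff.mp hx
    exact ⟨i, i.2, by simpa [x'] using hi⟩
  · intro k hk
    rw [← Finset.sum_coe_sort J]
    have := hs ⟨k, hk⟩
    have h3 : x' k = x ⟨k, hk⟩ := by simp [x', hk]
    rw [h3, ← this]
    refine Finset.sum_congr rfl fun i _ => ?_
    simp [x']

lemma repr_sum' {ι : Type w} [DecidableEq ι] (b : Basis ι ℂ E) (J : Finset ι) (x : ι → ℂ) (k : ι) :
    b.repr (∑ i ∈ J, x i • b i) k = if k ∈ J then x k else 0 := by
  rw [map_sum, Finsupp.finset_sum_apply]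
  by_cases hk : k ∈ J
  · rw [if_pos hk, Finset.sum_eq_single k]
    · simp
    · intro l _ hl
      rw [map_smul, Finsupp.smul_apply, Basis.repr_self, Finsupp.single_apply, if_neg hl]
      simp
    · intro h; exact absurd hk h
  · rw [if_neg hk]
    refine Finset.sum_eq_zero fun l hl => ?_
    rw [map_smul, Finsupp.smul_apply, Basis.repr_self, Finsupp.single_apply, if_neg]
    · simp
    · rintro rfl; exact hk hl

lemma sq_sum {ι : Type w} [Fintype ι] [DecidableEq ι] {b : Basis ι ℂ E} (hb : NaturalBasis μ b)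
    (J : Finset ι) (x : ι → ℂ) :
    μ (∑ i ∈ J, x i • b i) (∑ i ∈ J, x i • b i) = ∑ i ∈ J, x i ^ 2 • μ (b i) (b i) := by
  rw [mul_eq hb]
  simp only [repr_sum']
  rw [← Finset.sum_subset (Finset.subset_univ J)]
  · refine Finset.sum_congr rfl fun i hi => ?_
    rw [if_pos hi, sq]
  · intro i _ hi
    rw [if_neg hi]; simp

variable [FiniteDimensional ℂ E]

/-- For a subalgebra `D ≠ 0` with `D E = D` condition `P` gives a natural basis with `D` the line
of an idempotent basis vector. -/
lemma perfect_part (hP : CondP μ) (D : Submodule ℂ E) (hD : Submodule.map₂ μ D ⊤ = D)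
    (hD0 : D ≠ ⊥) :
    ∃ (b : Basis (Fin (finrank ℂ E)) ℂ E) (i : Fin (finrank ℂ E)) (x : ℂ), x ≠ 0 ∧
      NaturalBasis μ b ∧ D = Submodule.span ℂ {b i} ∧
      μ (x • b i) (x • b i) = x • b i := by
  classical
  have hsub : IsSubalg μ D := by
    intro x hx y _
    have h : μ x y ∈ Submodule.map₂ μ D ⊤ := Submodule.apply_mem_map₂ _ hx trivial
    rwa [hD] at h
  obtain ⟨b, S, hb, hS⟩ := hP _ hsub
  have hsq : ∀ i ∈ S, μ (b i) (b i) ∈ D := fun i hi => by
    have h1 : b i ∈ D := by rw [hS]; exact Submodule.subset_span ⟨i, hi, rfl⟩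
    exact hsub _ h1 _ h1
  have hDs : D = Submodule.span ℂ ((fun i => μ (b i) (b i)) '' S) := by
    rw [← map₂_coord hb, ← hS, hD]
  let J : Finset (Fin (finrank ℂ E)) := S.toFinset
  have hJ : (J : Set _) = S := Set.coe_toFinset S
  -- independence of the squares
  have hli : LinearIndependent ℂ (fun i : S => μ (b i) (b i)) := by
    rw [linearIndependent_iff_card_eq_finrank_span]
    have h1 : Set.range (fun i : S => μ (b i) (b i)) = (fun i => μ (b i) (b i)) '' S := by
      ext y; simp
    rw [Set.finrank, h1, ← hDs, hS, ← hJ, finrank_span_image]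
    simp
  have hind : ∀ y : Fin (finrank ℂ E) → ℂ, ∑ i ∈ J, y i • μ (b i) (b i) = 0 →
      ∀ i ∈ J, y i = 0 := by
    intro y hy i hi
    have h0 : LinearIndepOn ℂ (fun i => μ (b i) (b i)) (J : Set _) := by
      rw [hJ]
      exact hli
    exact linearIndepOn_finset_iff.mp h0 y hy i hi
  have hSne : S.Nonempty := by
    rw [Set.nonempty_iff_ne_empty]
    rintro rfl
    exact hD0 (by rw [hS]; simp)
  -- coordinates of the squares
  have hsqc : ∀ i ∈ S, ∀ k, k ∉ S → b.repr (μ (b i) (b i)) k = 0 := by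
    intro i hi k hk
    have := hsq i hi
    rw [hS] at this
    exact (mem_span_iff S _).mp this k hk
  -- idempotents have support one
  have hsupp : ∀ x : Fin (finrank ℂ E) → ℂ,
      μ (∑ i ∈ J, x i • b i) (∑ i ∈ J, x i • b i) = ∑ i ∈ J, x i • b i →
      ∀ i ∈ J, ∀ j ∈ J, i ≠ j → x i ≠ 0 → x j = 0 := by
    intro x hx i hi j hj hij hxi
    by_contra hxj
    set u := ∑ i ∈ J, x i • b i with hu
    have hcoord : ∀ k ∈ J, b.repr u k = x k := by
      intro k hk
      rw [hu, repr_sum', if_pos hk]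
    have hR := R1 hP u (by rw [hx]; exact Submodule.mem_span_singleton_self u)
    obtain ⟨c1, h1⟩ := hR (b i)
    obtain ⟨c2, h2⟩ := hR (b j)
    rw [mul_basis hb, hcoord i hi, hx] at h1
    rw [mul_basis hb, hcoord j hj, hx] at h2
    have h3 : ∑ k ∈ J, (if k = i then c2 * x i else if k = j then - (c1 * x j) else 0) •
        μ (b k) (b k) = 0 := by
      have h4 : ∀ k ∈ J, (if k = i then c2 * x i else if k = j then - (c1 * x j) else 0) •
          μ (b k) (b k) = (if k = i then (c2 * x i) • μ (b i) (b i) else 0) +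
            (if k = j then (-(c1 * x j)) • μ (b j) (b j) else 0) := by
        intro k _
        by_cases hki : k = i
        · subst hki; simp [hij]
        · by_cases hkj : k = j
          · subst hkj; simp [hki]
          · simp [hki, hkj]
      rw [Finset.sum_congr rfl h4, Finset.sum_add_distrib, Finset.sum_ite_eq' J i,
        Finset.sum_ite_eq' J j, if_pos hi, if_pos hj, mul_smul, h1, neg_smul, mul_smul, h2,
        smul_smul, smul_smul, mul_comm]
      simp
    have h5 := hind _ h3 i hi
    have h6 := hind _ h3 j hj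
    simp only [if_true, if_neg hij.symm] at h5 h6
    have hc2 : c2 = 0 := by
      rcases mul_eq_zero.mp h5 with h | h
      · exact h
      · exact absurd h hxi
    rw [hc2, zero_smul] at h2
    have h7 : μ (b j) (b j) = 0 := (smul_eq_zero.mp h2).resolve_left hxj
    have h8 : ∑ k ∈ J, (if k = j then (1:ℂ) else 0) • μ (b k) (b k) = 0 := by
      rw [Finset.sum_eq_single j]
      · simp [h7]
      · intro k _ hk; simp [hk]
      · intro h; exact absurd hj h
    have h9 := hind _ h8 j hj
    simp at h9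
  have hmemJ : ∀ k, k ∈ J ↔ k ∈ S := fun k => by
    rw [← hJ]; exact Finset.mem_coe.symm
  -- the first idempotent
  let A : Fin (finrank ℂ E) → Fin (finrank ℂ E) → ℂ := fun i k => b.repr (μ (b i) (b i)) k
  have hreprsum : ∀ (J' : Finset (Fin (finrank ℂ E))) (y : Fin (finrank ℂ E) → ℂ) k,
      b.repr (∑ i ∈ J', y i • μ (b i) (b i)) k = ∑ i ∈ J', y i * A i k := by
    intro J' y k
    rw [map_sum, Finsupp.finset_sum_apply]
    refine Finset.sum_congr rfl fun i _ => ?_
    rw [map_smul, Finsupp.smul_apply, smul_eq_mul]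
  have hAout : ∀ i ∈ J, ∀ k, k ∉ J → A i k = 0 := fun i hi k hk =>
    hsqc i ((hmemJ i).mp hi) k fun h => hk ((hmemJ k).mpr h)
  have hJne : J.Nonempty := by
    obtain ⟨i, hi⟩ := hSne
    exact ⟨i, (hmemJ i).mpr hi⟩
  obtain ⟨x, ⟨i1, hi1, hx1⟩, hxs⟩ := idem_on A J hJne (by
    intro y hy
    apply hind
    rw [← b.repr.map_eq_zero_iff]
    ext k
    rw [hreprsum]
    by_cases hk : k ∈ J
    · exact hy k hk
    · exact Finset.sum_eq_zero fun i hi => by rw [hAout i hi k hk, mul_zero])
  have hxidem : μ (∑ i ∈ J, x i • b i) (∑ i ∈ J, x i • b i) = ∑ i ∈ J, x i • b i := by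
    rw [sq_sum hb]
    apply b.repr.injective
    ext k
    rw [hreprsum, repr_sum']
    by_cases hk : k ∈ J
    · rw [if_pos hk]; exact hxs k hk
    · rw [if_neg hk]
      exact Finset.sum_eq_zero fun i hi => by rw [hAout i hi k hk, mul_zero]
  have hx0 : ∀ j ∈ J, j ≠ i1 → x j = 0 := fun j hj hne =>
    hsupp x hxidem i1 hi1 j hj hne.symm hx1
  have hsumx : ∑ i ∈ J, x i • b i = x i1 • b i1 := by
    rw [Finset.sum_eq_single i1]
    · intro j hj hne; rw [hx0 j hj hne, zero_smul]
    · intro h; exact absurd hi1 h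
  have hee : μ (x i1 • b i1) (x i1 • b i1) = x i1 • b i1 := by
    rw [hsumx] at hxidem; exact hxidem
  have hsq1 : x i1 ^ 2 • μ (b i1) (b i1) = x i1 • b i1 := by
    rw [← hee, map_smul, LinearMap.map_smul₂, smul_smul, sq]
  refine ⟨b, i1, x i1, hx1, hb, ?_, hee⟩
  -- J = {i1}
  have hJ1 : J = {i1} := by
    by_contra hne
    have hJ' : (J.erase i1).Nonempty := by
      rw [Finset.nonempty_iff_ne_empty]
      intro h
      apply hne
      rw [Finset.erase_eq_empty_iff] at h
      rcases h with h | h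
      · rw [h] at hi1; exact absurd hi1 (Finset.notMem_empty _)
      · exact h
    have hins : ∀ f : Fin (finrank ℂ E) → E, ∑ i ∈ J, f i = f i1 + ∑ i ∈ J.erase i1, f i :=
      fun f => (Finset.add_sum_erase J f hi1).symm
    obtain ⟨y, ⟨j, hj, hyj⟩, hys⟩ := idem_on A (J.erase i1) hJ' (by
      intro y hy
      have hz : ∑ i ∈ J.erase i1, y i • μ (b i) (b i) =
          b.repr (∑ i ∈ J.erase i1, y i • μ (b i) (b i)) i1 • b i1 := by
        apply b.repr.injective
        ext k
        rw [map_smul, Finsupp.smul_apply, Basis.repr_self, Finsupp.single_apply]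
        by_cases hk : i1 = k
        · subst hk; simp
        · rw [if_neg hk, smul_zero, hreprsum]
          by_cases hkJ : k ∈ J
          · exact hy k (Finset.mem_erase.mpr ⟨fun h => hk h.symm, hkJ⟩)
          · exact Finset.sum_eq_zero fun i hi => by
              rw [hAout i (Finset.mem_of_mem_erase hi) k hkJ, mul_zero]
      set z := b.repr (∑ i ∈ J.erase i1, y i • μ (b i) (b i)) i1 with hzdef
      have h1 := hind (fun i => if i = i1 then - (z * x i1) else y i) (by
        rw [hins]
        have h2 : ∑ i ∈ J.erase i1, (if i = i1 then - (z * x i1) else y i) • μ (b i) (b i) =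
            z • b i1 := by
          rw [← hz]
          refine Finset.sum_congr rfl fun i hi => ?_
          rw [if_neg (Finset.mem_erase.mp hi).1]
        rw [h2, if_pos rfl]
        have h3 : b i1 = x i1 • μ (b i1) (b i1) := by
          have h4 : x i1 • (x i1 • μ (b i1) (b i1)) = x i1 • b i1 := by
            rw [smul_smul, ← sq]; exact hsq1
          exact (smul_right_injective E hx1 h4).symm
        have h6 : z • b i1 = (z * x i1) • μ (b i1) (b i1) := by
          have h7 := congrArg (fun w => z • w) h3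
          simp only [smul_smul] at h7
          exact h7
        rw [h6, neg_smul, neg_add_cancel])
      intro i hi
      have h5 := h1 i (Finset.mem_of_mem_erase hi)
      simpa [(Finset.mem_erase.mp hi).1] using h5)
    -- the second idempotent
    have hjJ : j ∈ J := Finset.mem_of_mem_erase hj
    have hj1 : j ≠ i1 := (Finset.mem_erase.mp hj).1
    set c0 := b.repr (∑ i ∈ J.erase i1, y i ^ 2 • μ (b i) (b i)) i1 with hc0
    have hvv : ∑ i ∈ J.erase i1, y i ^ 2 • μ (b i) (b i) =
        ∑ i ∈ J.erase i1, y i • b i + c0 • b i1 := by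
      apply b.repr.injective
      ext k
      rw [map_add, Finsupp.add_apply, map_smul, Finsupp.smul_apply, Basis.repr_self,
        Finsupp.single_apply, repr_sum']
      by_cases hk : i1 = k
      · subst hk
        simp [hc0]
      · rw [if_neg hk, smul_zero, add_zero, hreprsum]
        by_cases hkJ : k ∈ J
        · have hk' : k ∈ J.erase i1 := Finset.mem_erase.mpr ⟨fun h => hk h.symm, hkJ⟩
          rw [if_pos hk']
          exact hys k hk'
        · rw [if_neg fun h => hkJ (Finset.mem_of_mem_erase h)]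
          exact Finset.sum_eq_zero fun i hi => by
            rw [hAout i (Finset.mem_of_mem_erase hi) k hkJ, mul_zero]
    obtain ⟨t, ht0, ht⟩ : ∃ t : ℂ, t ≠ 0 ∧ c0 * (x i1)⁻¹ + t ^ 2 = t := by
      obtain ⟨r, hr⟩ := IsAlgClosed.exists_pow_nat_eq (1 - 4 * (c0 * (x i1)⁻¹)) (n := 2) (by norm_num)
      by_cases h : (1 + r) / 2 = 0
      · refine ⟨(1 - r) / 2, ?_, ?_⟩
        · intro h2
          have h3 : (1 + r) / 2 + (1 - r) / 2 = (1:ℂ) := by ring
          rw [h, h2] at h3
          norm_num at h3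
        · have : c0 * (x i1)⁻¹ = (1 - r ^ 2) / 4 := by rw [hr]; ring
          rw [this]; ring
      · refine ⟨(1 + r) / 2, h, ?_⟩
        have : c0 * (x i1)⁻¹ = (1 - r ^ 2) / 4 := by rw [hr]; ring
        rw [this]; ring
    have hid : μ (∑ i ∈ J, (if i = i1 then t * x i1 else y i) • b i)
        (∑ i ∈ J, (if i = i1 then t * x i1 else y i) • b i) =
        ∑ i ∈ J, (if i = i1 then t * x i1 else y i) • b i := by
      rw [sq_sum hb (x := fun i => if i = i1 then t * x i1 else y i), hins, hins]
      have h1 : ∑ i ∈ J.erase i1, (if i = i1 then t * x i1 else y i) ^ 2 • μ (b i) (b i) =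
          ∑ i ∈ J.erase i1, y i ^ 2 • μ (b i) (b i) :=
        Finset.sum_congr rfl fun i hi => by rw [if_neg (Finset.mem_erase.mp hi).1]
      have h2 : ∑ i ∈ J.erase i1, (if i = i1 then t * x i1 else y i) • b i =
          ∑ i ∈ J.erase i1, y i • b i :=
        Finset.sum_congr rfl fun i hi => by rw [if_neg (Finset.mem_erase.mp hi).1]
      rw [h1, h2, hvv, if_pos rfl, mul_pow, mul_smul, hsq1]
      have h3 : c0 • b i1 = (c0 * (x i1)⁻¹) • (x i1 • b i1) := by
        rw [smul_smul, mul_assoc, inv_mul_cancel₀ hx1, mul_one]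
      rw [h3, mul_smul t (x i1)]
      conv_rhs => rw [← ht, add_smul]
      abel
    have := hsupp _ hid i1 hi1 j hjJ hj1.symm (by simpa using ⟨ht0, hx1⟩)
    rw [if_neg hj1] at this
    exact hyj this
  rw [hS, ← hJ, hJ1]
  simp

end Pool.Agent.H6EV
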